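import Mathlib

namespace Pool.Agent.MP_ada34c_an

open Filter Topology Finset

/-- Weighted Jensen inequality for the power `r`. -/
theorem weighted_jensen {ι : Type*} {r : ℝ} (hr : 1 < r) (s : Finset ι) (w a : ι → ℝ)
    (hw : ∀ i, 0 ≤ w i) :
    |∑ i ∈ s, w i * a i| ^ r ≤ (∑ i ∈ s, w i) ^ (r - 1) * ∑ i ∈ s, w i * |a i| ^ r := by
  have hr0 : 0 < r := by linarith
  have h1 : |∑ i ∈ s, w i * a i| ≤ ∑ i ∈ s, w i * |a i| := by
    refine (abs_sum_le_sum_abs _ _).trans (le_of_eq ?_)
    refine sum_congr rfl fun i _ => ?_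
    rw [abs_mul, abs_of_nonneg (hw i)]
  have h2 := Real.inner_le_weight_mul_Lp_of_nonneg s hr.le w (fun i => |a i|) hw
    (fun i => abs_nonneg _)
  have hW : 0 ≤ ∑ i ∈ s, w i := sum_nonneg fun i _ => hw i
  have hS : 0 ≤ ∑ i ∈ s, w i * |a i| ^ r :=
    sum_nonneg fun i _ => mul_nonneg (hw i) (by positivity)
  have h3 := Real.rpow_le_rpow (abs_nonneg _) (h1.trans h2) hr0.le
  refine h3.trans (le_of_eq ?_)
  rw [Real.mul_rpow (by positivity) (by positivity), ← Real.rpow_mul hW, ← Real.rpow_mul hS,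
    inv_mul_cancel₀ hr0.ne', Real.rpow_one]
  congr 2
  field_simp

theorem abs_add_rpow_le {r : ℝ} (hr : 1 < r) (x y : ℝ) :
    |x + y| ^ r ≤ 2 ^ (r - 1) * (|x| ^ r + |y| ^ r) := by
  have h := weighted_jensen hr (univ : Finset (Fin 2)) (fun _ => 1) ![x, y] (fun _ => zero_le_one)
  simpa using h

/-- Schur test with constant weights. -/
theorem schur_test {r : ℝ} (hr : 1 < r) (T : ℕ → ℕ → ℝ) (hT : ∀ j i, 0 ≤ T j i) (I J : Finset ℕ)
    (ρ κ : ℝ) (hρ : ∀ j ∈ J, ∑ i ∈ I, T j i ≤ ρ) (hρ0 : 0 ≤ ρ) (hκ : ∀ i ∈ I, ∑ j ∈ J, T j i ≤ κ)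
    (a : ℕ → ℝ) :
    ∑ j ∈ J, |∑ i ∈ I, T j i * a i| ^ r ≤ ρ ^ (r - 1) * κ * ∑ i ∈ I, |a i| ^ r := by
  have h1 : ∀ j ∈ J, |∑ i ∈ I, T j i * a i| ^ r ≤ ρ ^ (r - 1) * ∑ i ∈ I, T j i * |a i| ^ r := by
    intro j hj
    refine (weighted_jensen hr I (T j) a (hT j)).trans ?_
    refine mul_le_mul_of_nonneg_right ?_
      (sum_nonneg fun i _ => mul_nonneg (hT j i) (by positivity))
    exact Real.rpow_le_rpow (sum_nonneg fun i _ => hT j i) (hρ j hj) (by linarith)
  refine (sum_le_sum h1).trans ?_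
  rw [← mul_sum, sum_comm, mul_assoc]
  refine mul_le_mul_of_nonneg_left ?_ (by positivity)
  rw [mul_sum]
  refine sum_le_sum fun i hi => ?_
  rw [← sum_mul]
  exact mul_le_mul_of_nonneg_right (hκ i hi) (by positivity)

theorem sum_le_of_support (f : ℕ → ℝ) (hf : ∀ i, 0 ≤ f i) (s t : Finset ℕ)
    (h : ∀ x ∈ s, f x ≠ 0 → x ∈ t) : ∑ x ∈ s, f x ≤ ∑ x ∈ t, f x := by
  classical
  rw [← sum_filter_ne_zero s]
  refine sum_le_sum_of_subset_of_nonneg ?_ fun i _ _ => hf i
  intro x hx
  rw [mem_filter] at hx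
  exact h x hx.1 hx.2

/-- A lower triangular nonnegative matrix with all column sums equal to `L` whose lower left
corners are uniformly bounded operators. -/
theorem exists_matrix {r L : ℝ} (hr : 1 < r) (hL : 0 < L) :
    ∃ N : ℕ, 0 < N ∧ ∃ R : ℕ → ℕ → ℝ, (∀ j i, 0 ≤ R j i) ∧ (∀ j i, j < i → R j i = 0) ∧
      (∀ i < N, ∑ j ∈ range (2 * N), R j i = L) ∧
      ∀ l k : ℕ, k ≤ l + 1 → ∀ a : ℕ → ℝ,
        ∑ j ∈ range (2 * N), |if l ≤ j then ∑ i ∈ range k, R j i * a i else 0| ^ r ≤
          2 ^ r * ∑ i ∈ range k, |a i| ^ r := by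
  have hH := Real.tendsto_sum_range_one_div_nat_succ_atTop
  have hc : Tendsto (fun n : ℕ => L / ∑ i ∈ range n, (1 / (i + 1) : ℝ)) atTop (𝓝 0) :=
    tendsto_const_nhds.div_atTop hH
  have hc1 : Tendsto (fun n : ℕ => (L / ∑ i ∈ range n, (1 / (i + 1) : ℝ)) ^ (r - 1) * L) atTop
      (𝓝 0) := by
    have h := (hc.rpow_const (p := r - 1) (Or.inr (by linarith))).mul_const L
    rwa [Real.zero_rpow (by linarith), zero_mul] at h
  have hc2 : Tendsto (fun n : ℕ => L ^ (r - 1) * (L / ∑ i ∈ range n, (1 / (i + 1) : ℝ))) atTop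
      (𝓝 0) := by
    simpa using hc.const_mul (L ^ (r - 1))
  obtain ⟨N, ⟨hN1, hN2⟩, hN⟩ := (((hc1.eventually (gt_mem_nhds zero_lt_one)).and
    (hc2.eventually (gt_mem_nhds zero_lt_one))).and (eventually_gt_atTop 0)).exists
  set H : ℝ := ∑ i ∈ range N, (1 / (i + 1) : ℝ) with hHdef
  have hHpos : 0 < H := sum_pos (fun i _ => by positivity) (nonempty_range_iff.2 hN.ne')
  set c : ℝ := L / H with hcdef
  have hc0 : 0 < c := div_pos hL hHpos
  let α : ℕ → ℝ := fun k => if k < N then c / (k + 1) else 0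
  have hα0 : ∀ k, 0 ≤ α k := fun k => by
    simp only [α]; split_ifs <;> positivity
  have hαle : ∀ k, α k ≤ c / (k + 1) := fun k => by
    simp only [α]; split_ifs
    · exact le_rfl
    · positivity
  have hαsum : ∑ k ∈ range N, α k = L := by
    have : ∑ k ∈ range N, α k = c * H := by
      rw [hHdef, mul_sum]
      refine sum_congr rfl fun k hk => ?_
      simp only [α, mem_range.1 hk, if_true]
      ring
    rw [this, hcdef]; field_simp
  have hαle' : ∀ s : Finset ℕ, ∑ k ∈ s, α k ≤ L := by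
    intro s
    rw [← hαsum]
    refine sum_le_of_support α hα0 _ _ fun x _ hx => ?_
    by_contra h
    rw [mem_range] at h
    exact hx (by simp [α, h])
  let R : ℕ → ℕ → ℝ := fun j i => if i ≤ j then α (j - i) else 0
  have hR0 : ∀ j i, 0 ≤ R j i := fun j i => by
    simp only [R]; split_ifs
    · exact hα0 _
    · exact le_rfl
  have hcol : ∀ i, ∑ j ∈ Ico i (i + N), R j i = L := by
    intro i
    rw [sum_Ico_eq_sum_range, ← hαsum, Nat.add_sub_cancel_left]
    refine sum_congr rfl fun k _ => ?_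
    simp [R]
  have hsupp : ∀ j i, R j i ≠ 0 → j ∈ Ico i (i + N) := by
    intro j i h
    rw [mem_Ico]
    by_cases h1 : i ≤ j
    · refine ⟨h1, ?_⟩
      by_contra h2
      have : ¬ (j - i < N) := by omega
      exact h (by simp [R, α, h1, this])
    · exact absurd (by simp [R, h1]) h
  have hcolle : ∀ (i : ℕ) (J : Finset ℕ), ∑ j ∈ J, R j i ≤ L := by
    intro i J
    rw [← hcol i]
    exact sum_le_of_support (fun j => R j i) (fun j => hR0 j i) _ _ fun j _ hj => hsupp j i hj
  have hrowle : ∀ (j : ℕ) (I : Finset ℕ), ∑ i ∈ I, R j i ≤ L := by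
    intro j I
    have h1 : ∑ i ∈ I, R j i ≤ ∑ i ∈ range (j + 1), R j i := by
      refine sum_le_of_support (fun i => R j i) (fun i => hR0 j i) _ _ fun i _ hi => ?_
      have := mem_Ico.1 (hsupp j i hi)
      exact mem_range.2 (by omega)
    have h2 : ∑ i ∈ range (j + 1), R j i = ∑ i ∈ range (j + 1), α (j - i) := by
      refine sum_congr rfl fun i hi => ?_
      have : i ≤ j := by have := mem_range.1 hi; omega
      simp [R, this]
    rw [h2, sum_flip] at h1
    exact h1.trans (hαle' _)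
  have hRle : ∀ j i t : ℕ, i ≤ j → t ≤ j - i → R j i ≤ c / (t + 1) := by
    intro j i t h1 h2
    simp only [R, h1, if_true]
    refine (hαle _).trans ?_
    have : (t : ℝ) ≤ ((j - i : ℕ) : ℝ) := by exact_mod_cast h2
    gcongr
  refine ⟨N, hN, R, hR0, fun j i h => by simp [R, not_le.2 h], fun i hi => ?_, ?_⟩
  · refine le_antisymm (hcolle i _) ?_
    rw [← hcol i]
    refine sum_le_sum_of_subset_of_nonneg ?_ fun j _ _ => hR0 j i
    intro j hj
    have := mem_Ico.1 hj
    exact mem_range.2 (by omega)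
  · intro l k hk a
    let T1 : ℕ → ℕ → ℝ := fun j i => if l ≤ j ∧ i ≤ l ∧ l - i ≤ j - l then R j i else 0
    let T2 : ℕ → ℕ → ℝ := fun j i => if l ≤ j ∧ i ≤ l ∧ j - l < l - i then R j i else 0
    have hT1 : ∀ j i, 0 ≤ T1 j i := fun j i => by
      simp only [T1]; split_ifs
      · exact hR0 _ _
      · exact le_rfl
    have hT2 : ∀ j i, 0 ≤ T2 j i := fun j i => by
      simp only [T2]; split_ifs
      · exact hR0 _ _
      · exact le_rfl
    have hT1R : ∀ j i, T1 j i ≤ R j i := fun j i => by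
      simp only [T1]; split_ifs
      · exact le_rfl
      · exact hR0 _ _
    have hT2R : ∀ j i, T2 j i ≤ R j i := fun j i => by
      simp only [T2]; split_ifs
      · exact le_rfl
      · exact hR0 _ _
    have hsplit : ∀ j, (if l ≤ j then ∑ i ∈ range k, R j i * a i else 0) =
        ∑ i ∈ range k, T1 j i * a i + ∑ i ∈ range k, T2 j i * a i := by
      intro j
      rw [← sum_add_distrib]
      split_ifs with h
      · refine sum_congr rfl fun i hi => ?_
        have hi' : i ≤ l := by have := mem_range.1 hi; omega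
        by_cases h2 : l - i ≤ j - l
        · simp only [T1, T2, h, hi', h2, not_lt.2 h2, and_self, if_true, and_false, if_false,
            zero_mul, add_zero]
        · simp only [T1, T2, h, hi', h2, not_le.1 h2, and_self, if_true, and_false, if_false,
            zero_mul, zero_add]
      · refine (sum_eq_zero fun i _ => ?_).symm
        simp [T1, T2, h]
    have hS1 := schur_test hr T1 hT1 (range k) (range (2 * N)) c L ?_ hc0.le
      (fun i _ => (sum_le_sum fun j _ => hT1R j i).trans (hcolle i _)) a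
    · have hS2 := schur_test hr T2 hT2 (range k) (range (2 * N)) L c
        (fun j _ => (sum_le_sum fun i _ => hT2R j i).trans (hrowle j _)) hL.le ?_ a
      · have hA : 0 ≤ ∑ i ∈ range k, |a i| ^ r := sum_nonneg fun i _ => by positivity
        have h1 : ∑ j ∈ range (2 * N), |∑ i ∈ range k, T1 j i * a i| ^ r ≤
            ∑ i ∈ range k, |a i| ^ r := hS1.trans (by nlinarith)
        have h2 : ∑ j ∈ range (2 * N), |∑ i ∈ range k, T2 j i * a i| ^ r ≤
            ∑ i ∈ range k, |a i| ^ r := hS2.trans (by nlinarith)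
        simp only [hsplit]
        refine (sum_le_sum fun j _ => abs_add_rpow_le hr _ _).trans ?_
        rw [← mul_sum, sum_add_distrib]
        have h3 : (2 : ℝ) ^ r = 2 ^ (r - 1) * 2 := by
          rw [Real.rpow_sub_one two_ne_zero]; field_simp
        rw [h3, mul_assoc]
        refine mul_le_mul_of_nonneg_left (by linarith) (by positivity)
      · intro i _
        have h1 : ∑ j ∈ range (2 * N), T2 j i ≤ ∑ j ∈ Ico l (l + (l - i)), T2 j i := by
          refine sum_le_of_support (fun j => T2 j i) (fun j => hT2 j i) _ _ fun j _ hj => ?_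
          by_contra h
          rw [mem_Ico] at h
          have : ¬ (l ≤ j ∧ i ≤ l ∧ j - l < l - i) := by omega
          exact hj (by simp only [T2, this, if_false])
        have h2 : ∑ j ∈ Ico l (l + (l - i)), T2 j i ≤
            (Ico l (l + (l - i))).card • (c / (((l - i : ℕ) : ℝ) + 1)) := by
          refine sum_le_card_nsmul _ _ _ fun j _ => ?_
          simp only [T2]
          split_ifs with h
          · exact hRle j i _ (by omega) (by omega)
          · positivity
        refine h1.trans (h2.trans ?_)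
        rw [Nat.card_Ico, Nat.add_sub_cancel_left, nsmul_eq_mul, ← mul_div_assoc,
          div_le_iff₀ (by positivity)]
        nlinarith
    · intro j _
      have h1 : ∑ i ∈ range k, T1 j i ≤ ∑ i ∈ Icc (l - (j - l)) l, T1 j i := by
        refine sum_le_of_support (fun i => T1 j i) (fun i => hT1 j i) _ _ fun i _ hi => ?_
        by_contra h
        rw [mem_Icc] at h
        have : ¬ (l ≤ j ∧ i ≤ l ∧ l - i ≤ j - l) := by omega
        exact hi (by simp only [T1, this, if_false])
      have h2 : ∑ i ∈ Icc (l - (j - l)) l, T1 j i ≤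
          (Icc (l - (j - l)) l).card • (c / (((j - l : ℕ) : ℝ) + 1)) := by
        refine sum_le_card_nsmul _ _ _ fun i _ => ?_
        simp only [T1]
        split_ifs with h
        · exact hRle j i _ (by omega) (by omega)
        · positivity
      refine h1.trans (h2.trans ?_)
      have h3 : (((Icc (l - (j - l)) l).card : ℕ) : ℝ) ≤ ((j - l : ℕ) : ℝ) + 1 := by
        rw [Nat.card_Icc]
        have : l + 1 - (l - (j - l)) ≤ (j - l) + 1 := by omega
        exact_mod_cast this
      rw [nsmul_eq_mul, ← mul_div_assoc, div_le_iff₀ (by positivity)]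
      nlinarith

end Pool.Agent.MP_ada34c_an
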