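import Mathlib
import Pool.Agent.MP_ada34c_an.Matrix

namespace Pool.Agent.MP_ada34c_an

open Filter Topology Finset

theorem average_rpow_le {ι : Type*} {r μ : ℝ} (hr : 1 < r) (hμ : 0 < μ) (s : Finset ι)
    (w a : ι → ℝ) (hw : ∀ i, 0 ≤ w i) (hs : ∑ i ∈ s, w i ≤ μ) :
    |(∑ i ∈ s, w i * a i) / μ| ^ r * μ ≤ ∑ i ∈ s, w i * |a i| ^ r := by
  have h1 := weighted_jensen hr s w a hw
  have hS : 0 ≤ ∑ i ∈ s, w i * |a i| ^ r :=
    sum_nonneg fun i _ => mul_nonneg (hw i) (by positivity)
  have h2 : (∑ i ∈ s, w i) ^ (r - 1) ≤ μ ^ (r - 1) :=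
    Real.rpow_le_rpow (sum_nonneg fun i _ => hw i) hs (by linarith)
  have h3 := h1.trans (mul_le_mul_of_nonneg_right h2 hS)
  rw [abs_div, abs_of_pos hμ, Real.div_rpow (abs_nonneg _) hμ.le, div_mul_eq_mul_div,
    div_le_iff₀ (by positivity)]
  rw [Real.rpow_sub_one hμ.ne', div_mul_eq_mul_div, le_div_iff₀ hμ] at h3
  linarith

/-- The finite dimensional heart of the construction. -/
theorem block_lemma {X : Type*} [NormedAddCommGroup X] [NormedSpace ℝ X] {r L h m0 : ℝ}
    (hr : 1 < r) (hL : 1 ≤ L) (hh : 0 < h) {N : ℕ} (hN : 0 < N) (hm : N * h ≤ m0)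
    {R : ℕ → ℕ → ℝ} (hRz : ∀ j i, j < i → R j i = 0)
    (hRc : ∀ i < N, ∑ j ∈ range (2 * N), R j i = L)
    (hRk : ∀ l k : ℕ, k ≤ l + 1 → ∀ a : ℕ → ℝ,
      ∑ j ∈ range (2 * N), |if l ≤ j then ∑ i ∈ range k, R j i * a i else 0| ^ r ≤
        2 ^ r * ∑ i ∈ range k, |a i| ^ r)
    (W : Set X) (hW0 : (0 : X) ∈ W) (e0 : X) (e e' : ℕ → X)
    (hnorm : ∀ z ∈ W, ∀ (c0 : ℝ) (c d : ℕ → ℝ),
      ‖z + c0 • e0 + ∑ i ∈ range N, c i • e i + ∑ j ∈ range (2 * N), d j • e' j‖ ^ r =
        ‖z‖ ^ r + |c0| ^ r * m0 + h * ∑ i ∈ range N, |c i| ^ r +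
          h * ∑ j ∈ range (2 * N), |d j| ^ r)
    (w : X) (hw : w = e0 + ∑ i ∈ range N, e i)
    (x y : ℕ → X) (hx : ∀ i, x i = e i + ∑ j ∈ range (2 * N), R j i • e' j)
    (hy : ∀ j, y j = e' j + (h / (L * (m0 + N * h))) • w)
    (z : X) (hz : z ∈ W) (lam : ℝ) (a b : ℕ → ℝ) :
    ‖z + lam • w‖ ≤ (1 + 1 / L) *
      ‖z + lam • w + ∑ i ∈ range N, a i • x i + ∑ j ∈ range (2 * N), b j • y j‖ ∧
    ∀ k l : ℕ, k ≤ N → l ≤ 2 * N → k ≤ l + 1 → (l ≤ k ∨ k = N) →
      ‖z + lam • w + ∑ i ∈ range k, a i • x i + ∑ j ∈ range l, b j • y j‖ ≤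
        16 * ‖z + lam • w + ∑ i ∈ range N, a i • x i + ∑ j ∈ range (2 * N), b j • y j‖ := by
  have hr0 : 0 < r := by linarith
  have hL0 : 0 < L := by linarith
  have hNh : 0 < (N : ℝ) * h := mul_pos (by exact_mod_cast hN) hh
  have hm0 : 0 < m0 := by linarith
  set μ : ℝ := m0 + N * h with hμdef
  have hμ : 0 < μ := by linarith
  have hle : ∀ {A B : ℝ}, 0 ≤ A → 0 ≤ B → A ^ r ≤ B ^ r → A ≤ B :=
    fun hA hB hAB => (Real.rpow_le_rpow_iff hA hB hr0).1 hAB
  have h0r : (0 : ℝ) ^ r = 0 := Real.zero_rpow hr0.ne'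
  let U : (ℕ → ℝ) → X := fun c => ∑ i ∈ range N, c i • e i
  let V : (ℕ → ℝ) → X := fun d => ∑ j ∈ range (2 * N), d j • e' j
  have hU : ∀ c, ‖U c‖ ^ r = h * ∑ i ∈ range N, |c i| ^ r := by
    intro c
    have := hnorm 0 hW0 0 c (fun _ => 0)
    simpa [h0r] using this
  have hV : ∀ d, ‖V d‖ ^ r = h * ∑ j ∈ range (2 * N), |d j| ^ r := by
    intro d
    have := hnorm 0 hW0 0 (fun _ => 0) d
    simpa [h0r] using this
  have hzw : ∀ z ∈ W, ∀ β : ℝ, ‖z + β • w‖ ^ r = ‖z‖ ^ r + |β| ^ r * μ := by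
    intro z hz β
    have := hnorm z hz β (fun _ => β) (fun _ => 0)
    simp only [zero_smul, sum_const_zero, add_zero, abs_zero, h0r, mul_zero, sum_const, card_range,
      nsmul_eq_mul] at this
    rw [hw, smul_add, smul_sum, ← add_assoc, this, hμdef]
    ring
  have hw' : ∀ β : ℝ, ‖β • w‖ ^ r = |β| ^ r * μ := by
    intro β
    have := hzw 0 hW0 β
    simpa [h0r] using this
  have hav : ∀ (n : ℕ) (c : ℕ → ℝ), n * h ≤ μ →
      ‖(h / μ * ∑ i ∈ range n, c i) • w‖ ^ r ≤ h * ∑ i ∈ range n, |c i| ^ r := by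
    intro n c hn
    have := average_rpow_le hr hμ (range n) (fun _ => h) c (fun _ => hh.le) (by simpa using hn)
    rw [hw', mul_sum (range n) (fun i => |c i| ^ r)]
    rw [← mul_sum] at this
    convert this using 4
    ring
  have havU : ∀ c, ‖(h / μ * ∑ i ∈ range N, c i) • w‖ ≤ ‖U c‖ := by
    intro c
    refine hle (norm_nonneg _) (norm_nonneg _) ?_
    rw [hU]
    exact hav N c (by linarith)
  have havV : ∀ d, ‖(h / μ * ∑ j ∈ range (2 * N), d j) • w‖ ≤ ‖V d‖ := by
    intro d
    refine hle (norm_nonneg _) (norm_nonneg _) ?_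
    rw [hV]
    exact hav (2 * N) d (by push_cast; linarith)
  -- representation of the initial sums
  let a' : ℕ → ℕ → ℝ := fun k i => if i < k then a i else 0
  let g' : ℕ → ℕ → ℕ → ℝ := fun k l j => (if j < l then b j else 0) + ∑ i ∈ range k, R j i * a i
  have hcut : ∀ {M : Type _} [AddCommMonoid M] (n k : ℕ) (f : ℕ → M), k ≤ n →
      ∑ i ∈ range n, (if i < k then f i else 0) = ∑ i ∈ range k, f i := by
    intro M _ n k f hk
    rw [← sum_filter]
    congr 1
    ext i
    simp only [mem_filter, mem_range]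
    omega
  have hcutR : ∀ (n k : ℕ) (f : ℕ → ℝ), k ≤ n →
      ∑ i ∈ range n, (if i < k then f i else 0) = ∑ i ∈ range k, f i := by
    intro n k f hk
    rw [← sum_filter]
    congr 1
    ext i
    simp only [mem_filter, mem_range]
    omega
  have hsumg : ∀ k l, k ≤ N → l ≤ 2 * N →
      ∑ j ∈ range (2 * N), g' k l j = ∑ j ∈ range l, b j + L * ∑ i ∈ range k, a i := by
    intro k l hk hl
    simp only [g']
    rw [sum_add_distrib, hcutR _ _ _ hl, sum_comm, mul_sum]
    congr 1
    refine sum_congr rfl fun i hi => ?_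
    rw [← sum_mul, hRc i (by have := mem_range.1 hi; omega)]
  have hrep : ∀ k l, k ≤ N → l ≤ 2 * N →
      z + lam • w + ∑ i ∈ range k, a i • x i + ∑ j ∈ range l, b j • y j =
        z + (lam + h / (L * μ) * ∑ j ∈ range l, b j) • w + U (a' k) + V (g' k l) := by
    intro k l hk hl
    have h1 : U (a' k) = ∑ i ∈ range k, a i • e i := by
      simp only [U, a', ite_smul, zero_smul]
      exact hcut _ _ _ hk
    have h2 : V (g' k l) = ∑ j ∈ range l, b j • e' j +
        ∑ i ∈ range k, a i • ∑ j ∈ range (2 * N), R j i • e' j := by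
      simp only [V, g', add_smul, ite_smul, zero_smul, sum_add_distrib]
      rw [hcut _ _ _ hl]
      congr 1
      simp only [sum_smul, smul_sum]
      rw [sum_comm]
      refine sum_congr rfl fun i _ => sum_congr rfl fun j _ => ?_
      rw [smul_smul, mul_comm]
    have h3 : ∑ j ∈ range l, b j • y j = ∑ j ∈ range l, b j • e' j +
        (h / (L * μ) * ∑ j ∈ range l, b j) • w := by
      simp only [hy, smul_add, sum_add_distrib]
      congr 1
      rw [mul_sum, sum_smul]
      refine sum_congr rfl fun j _ => ?_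
      rw [smul_smul, mul_comm]
    have h4 : ∑ i ∈ range k, a i • x i = ∑ i ∈ range k, a i • e i +
        ∑ i ∈ range k, a i • ∑ j ∈ range (2 * N), R j i • e' j := by
      simp only [hx, smul_add, sum_add_distrib]
    rw [h1, h2, h3, h4, add_smul]
    abel
  set Z := z + lam • w + ∑ i ∈ range N, a i • x i + ∑ j ∈ range (2 * N), b j • y j with hZ
  set β : ℝ := lam + h / (L * μ) * ∑ j ∈ range (2 * N), b j with hβ
  let g : ℕ → ℝ := g' N (2 * N)
  have hUa : U (a' N) = U a := by
    refine sum_congr rfl fun i hi => ?_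
    simp [a', mem_range.1 hi]
  have hZ1 : Z = z + β • e0 + U (fun i => a i + β) + V g := by
    rw [hZ, hrep N (2 * N) le_rfl le_rfl, hUa, ← hβ, hw]
    simp only [U, add_smul, sum_add_distrib, smul_add, smul_sum]
    abel
  have hZn : ‖Z‖ ^ r = ‖z‖ ^ r + |β| ^ r * m0 + h * ∑ i ∈ range N, |a i + β| ^ r +
      h * ∑ j ∈ range (2 * N), |g j| ^ r := by
    rw [hZ1]
    exact hnorm z hz β (fun i => a i + β) g
  have p1 : 0 ≤ ‖z‖ ^ r := by positivity
  have p2 : 0 ≤ |β| ^ r * m0 := by positivity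
  have p3 : 0 ≤ h * ∑ i ∈ range N, |a i + β| ^ r :=
    mul_nonneg hh.le (sum_nonneg fun i _ => by positivity)
  have p4 : 0 ≤ h * ∑ j ∈ range (2 * N), |g j| ^ r :=
    mul_nonneg hh.le (sum_nonneg fun i _ => by positivity)
  have hVg : ‖V g‖ ≤ ‖Z‖ := by
    refine hle (norm_nonneg _) (norm_nonneg _) ?_
    rw [hV, hZn]; linarith
  have hUab : ‖U (fun i => a i + β)‖ ≤ ‖Z‖ := by
    refine hle (norm_nonneg _) (norm_nonneg _) ?_
    rw [hU, hZn]; linarith
  have hUb : ‖U (fun _ => β)‖ ≤ ‖Z‖ := by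
    refine hle (norm_nonneg _) (norm_nonneg _) ?_
    rw [hU, hZn, sum_const, card_range, nsmul_eq_mul]
    have : 0 ≤ |β| ^ r := by positivity
    nlinarith
  have hUa2 : ‖U a‖ ≤ 2 * ‖Z‖ := by
    have : U a = U (fun i => a i + β) - U (fun _ => β) := by
      simp only [U, add_smul, sum_add_distrib]; abel
    rw [this]
    refine (norm_sub_le _ _).trans ?_
    linarith
  have hfirst : ‖z + lam • w‖ ≤ (1 + 1 / L) * ‖Z‖ := by
    set av : ℝ := β + h / μ * ∑ i ∈ range N, a i with hav_def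
    have h1 : ‖z + av • w‖ ≤ ‖Z‖ := by
      refine hle (norm_nonneg _) (norm_nonneg _) ?_
      rw [hzw z hz, hZn]
      have hJ := average_rpow_le hr hμ (range (N + 1)) (fun i => if i < N then h else m0)
        (fun i => if i < N then a i + β else β)
        (fun i => by split_ifs; exacts [hh.le, hm0.le]) ?_
      · rw [sum_range_succ, sum_range_succ] at hJ
        have e1 : ∑ i ∈ range N, (if i < N then h else m0) * (if i < N then a i + β else β) =
            h * ∑ i ∈ range N, a i + N * h * β := by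
          rw [sum_congr rfl (g := fun i => h * a i + h * β)
            (fun i hi => by simp only [mem_range.1 hi, if_true]; ring), sum_add_distrib,
            ← mul_sum, sum_const, card_range, nsmul_eq_mul]
          ring
        have e2 : ∑ i ∈ range N, (if i < N then h else m0) * |if i < N then a i + β else β| ^ r =
            h * ∑ i ∈ range N, |a i + β| ^ r := by
          rw [mul_sum]
          exact sum_congr rfl fun i hi => by simp only [mem_range.1 hi, if_true]
        rw [e1, e2] at hJ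
        simp only [lt_irrefl, if_false] at hJ
        have e3 : (h * ∑ i ∈ range N, a i + N * h * β + m0 * β) / μ = av := by
          rw [hav_def]; field_simp; rw [hμdef]; ring
        rw [e3] at hJ
        linarith
      · rw [sum_range_succ, sum_congr rfl (g := fun _ => h)
          (fun i hi => by simp only [mem_range.1 hi, if_true])]
        simp only [lt_irrefl, if_false, sum_const, card_range, nsmul_eq_mul]
        linarith
    have h2 : z + lam • w = (z + av • w) - (1 / L) • ((h / μ * ∑ j ∈ range (2 * N), g j) • w) := by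
      rw [smul_smul, add_sub_assoc, ← sub_smul]
      congr 2
      rw [hav_def, hβ, hsumg N (2 * N) le_rfl le_rfl]
      field_simp
      ring
    rw [h2]
    refine (norm_sub_le _ _).trans ?_
    rw [norm_smul, Real.norm_eq_abs, abs_of_pos (by positivity : 0 < 1 / L)]
    have h3 := (havV g).trans hVg
    have h4 : 1 / L * ‖(h / μ * ∑ j ∈ range (2 * N), g j) • w‖ ≤ 1 / L * ‖Z‖ :=
      mul_le_mul_of_nonneg_left h3 (by positivity)
    linarith
  refine ⟨hfirst, fun k l hk hl hkl hlk => ?_⟩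
  have hL1 : 1 / L ≤ 1 := by rw [div_le_one hL0]; exact hL
  have hUk : ‖U (a' k)‖ ≤ ‖U a‖ := by
    refine hle (norm_nonneg _) (norm_nonneg _) ?_
    rw [hU, hU]
    refine mul_le_mul_of_nonneg_left (sum_le_sum fun i _ => ?_) hh.le
    simp only [a']
    split_ifs
    · exact le_rfl
    · rw [abs_zero, h0r]; positivity
  have hVk : ‖V (g' k l)‖ ≤ 5 * ‖Z‖ := by
    have h1 : V (g' k l) = V (fun j => if j < l then g j else 0) +
        V (fun j => if l ≤ j then ∑ i ∈ range k, R j i * a i else 0) := by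
      simp only [V]
      rw [← sum_add_distrib]
      refine sum_congr rfl fun j hj => ?_
      rw [← add_smul]
      congr 1
      have hj' := mem_range.1 hj
      by_cases hjl : j < l
      · simp only [g, g', hjl, hj', if_true, not_le.2 hjl, if_false, add_zero]
        congr 1
        rcases hlk with hlk | hlk
        · refine sum_subset (range_subset_range.2 hk) fun i _ hi => ?_
          rw [mem_range] at hi
          rw [hRz j i (by omega), zero_mul]
        · rw [hlk]
      · simp only [g', hjl, if_false, not_lt.1 hjl, if_true]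
    have h2 : ‖V (fun j => if j < l then g j else 0)‖ ≤ ‖V g‖ := by
      refine hle (norm_nonneg _) (norm_nonneg _) ?_
      rw [hV, hV]
      refine mul_le_mul_of_nonneg_left (sum_le_sum fun i _ => ?_) hh.le
      split_ifs
      · exact le_rfl
      · rw [abs_zero, h0r]; positivity
    have h3 : ‖V (fun j => if l ≤ j then ∑ i ∈ range k, R j i * a i else 0)‖ ≤ 2 * ‖U a‖ := by
      refine hle (norm_nonneg _) (by positivity) ?_
      rw [hV, Real.mul_rpow (by norm_num) (norm_nonneg _), hU]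
      have h4 := hRk l k hkl a
      have h5 : ∑ i ∈ range k, |a i| ^ r ≤ ∑ i ∈ range N, |a i| ^ r :=
        sum_le_sum_of_subset_of_nonneg (range_subset_range.2 hk) fun i _ _ => by positivity
      have h6 : (2 : ℝ) ^ r * ∑ i ∈ range k, |a i| ^ r ≤ 2 ^ r * ∑ i ∈ range N, |a i| ^ r :=
        mul_le_mul_of_nonneg_left h5 (by positivity)
      have h7 := mul_le_mul_of_nonneg_left (h4.trans h6) hh.le
      linarith
    rw [h1]
    refine (norm_add_le _ _).trans ?_
    linarith
  have hsa : ∑ i ∈ range N, a' k i = ∑ i ∈ range k, a i := hcutR _ _ _ hk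
  have hfin : z + lam • w + ∑ i ∈ range k, a i • x i + ∑ j ∈ range l, b j • y j =
      (z + lam • w) + (1 / L) • ((h / μ * ∑ j ∈ range (2 * N), g' k l j) • w) -
        (h / μ * ∑ i ∈ range N, a' k i) • w + U (a' k) + V (g' k l) := by
    rw [hrep k l hk hl]
    congr 2
    rw [smul_smul, add_assoc, ← add_smul, add_sub_assoc, ← sub_smul]
    congr 2
    rw [hsa, hsumg k l hk hl]
    field_simp
    ring
  rw [hfin]
  have q1 := havV (g' k l)
  have q2 := havU (a' k)
  have q3 : ‖(1 / L) • ((h / μ * ∑ j ∈ range (2 * N), g' k l j) • w)‖ ≤ ‖V (g' k l)‖ := by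
    rw [norm_smul, Real.norm_eq_abs, abs_of_pos (by positivity : 0 < 1 / L)]
    have := norm_nonneg ((h / μ * ∑ j ∈ range (2 * N), g' k l j) • w)
    nlinarith
  have q4 : ‖z + lam • w‖ ≤ 2 * ‖Z‖ := by
    have := norm_nonneg Z
    nlinarith
  refine (norm_add_le _ _).trans ?_
  have q5 := norm_add_le ((z + lam • w) + (1 / L) • ((h / μ * ∑ j ∈ range (2 * N), g' k l j) • w) -
        (h / μ * ∑ i ∈ range N, a' k i) • w) (U (a' k))
  have q6 := norm_sub_le ((z + lam • w) + (1 / L) • ((h / μ * ∑ j ∈ range (2 * N), g' k l j) • w))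
        ((h / μ * ∑ i ∈ range N, a' k i) • w)
  have q7 := norm_add_le (z + lam • w) ((1 / L) • ((h / μ * ∑ j ∈ range (2 * N), g' k l j) • w))
  have := norm_nonneg Z
  linarith

end Pool.Agent.MP_ada34c_an
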