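import Mathlib

namespace Pool.Agent.MP_ada34c_an

open Filter Topology Finset MeasureTheory
open scoped ENNReal

/-- The indicator function of the half open interval from `a` to `b`, as an element of `Lp`. -/
noncomputable def ind (p : ℝ≥0∞) (a b : ℝ) : Lp ℝ p (volume : Measure ℝ) :=
  indicatorConstLp p (measurableSet_Ico (a := a) (b := b)) measure_Ico_lt_top.ne (1 : ℝ)

/-- Functions vanishing almost everywhere on `s`. -/
def van (p : ℝ≥0∞) (s : Set ℝ) : Submodule ℝ (Lp ℝ p (volume : Measure ℝ)) where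
  carrier := {f | ∀ᵐ x, x ∈ s → f x = 0}
  add_mem' := by
    intro f g hf hg
    filter_upwards [hf, hg, Lp.coeFn_add f g] with x h1 h2 h3 hx
    rw [h3, Pi.add_apply, h1 hx, h2 hx, add_zero]
  zero_mem' := by
    filter_upwards [Lp.coeFn_zero ℝ p (volume : Measure ℝ)] with x h1 _
    rw [h1, Pi.zero_apply]
  smul_mem' := by
    intro c f hf
    filter_upwards [hf, Lp.coeFn_smul c f] with x h1 h3 hx
    rw [h3, Pi.smul_apply, h1 hx, smul_zero]

variable {p : ℝ≥0∞}

theorem van_mono {s t : Set ℝ} (h : s ⊆ t) : van p t ≤ van p s := by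
  intro f hf
  have hf' : ∀ᵐ x, x ∈ t → f x = 0 := hf
  exact hf'.mono fun x h1 hx => h1 (h hx)

theorem ind_coe (a b : ℝ) : ∀ᵐ x, ind p a b x = if a ≤ x ∧ x < b then 1 else 0 := by
  filter_upwards [indicatorConstLp_coeFn (p := p) (μ := (volume : Measure ℝ))
    (hs := measurableSet_Ico (a := a) (b := b)) (hμs := measure_Ico_lt_top.ne) (c := (1 : ℝ))]
    with x hx
  rw [ind, hx, Set.indicator_apply]
  simp only [Set.mem_Ico]

theorem ind_mem_van {a b : ℝ} {s : Set ℝ} (h : ∀ x ∈ s, ¬ (a ≤ x ∧ x < b)) :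
    ind p a b ∈ van p s := by
  filter_upwards [ind_coe (p := p) a b] with x h1 hx
  rw [h1, if_neg (h x hx)]

theorem ind_eq_zero {a b : ℝ} (h : b ≤ a) : ind p a b = 0 := by
  refine Lp.ext ?_
  filter_upwards [ind_coe (p := p) a b, Lp.coeFn_zero ℝ p (volume : Measure ℝ)] with x h1 h2
  rw [h1, h2, if_neg (fun hx => by linarith [hx.1, hx.2]), Pi.zero_apply]

theorem ind_add {a b c : ℝ} (h1 : a ≤ b) (h2 : b ≤ c) : ind p a b + ind p b c = ind p a c := by
  refine Lp.ext ?_
  filter_upwards [ind_coe (p := p) a b, ind_coe (p := p) b c, ind_coe (p := p) a c,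
    Lp.coeFn_add (ind p a b) (ind p b c)] with x e1 e2 e3 e4
  rw [e4, Pi.add_apply, e1, e2, e3]
  by_cases hx : x < b
  · have : ¬ b ≤ x := not_le.2 hx
    have h3 : x < c := lt_of_lt_of_le hx h2
    simp [hx, this, h3]
  · have h3 : b ≤ x := not_lt.1 hx
    have h4 : a ≤ x := h1.trans h3
    simp [hx, h3, h4]

theorem ind_nonneg (a b : ℝ) : ∀ᵐ x, 0 ≤ ind p a b x := by
  filter_upwards [ind_coe (p := p) a b] with x h1
  rw [h1]; split_ifs <;> norm_num

theorem ind_trans {S : Submodule ℝ (Lp ℝ p (volume : Measure ℝ))} {s t u : ℝ}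
    (h1 : ind p s t ∈ S) (h2 : ind p t s ∈ S) (h3 : ind p t u ∈ S) (h4 : ind p u t ∈ S) :
    ind p s u ∈ S := by
  rcases le_total u s with h | h
  · rw [ind_eq_zero h]; exact S.zero_mem
  · rcases le_total t s with h' | h'
    · have := ind_add (p := p) h' h
      rw [eq_sub_of_add_eq' this]
      exact S.sub_mem h3 h2
    · rcases le_total t u with h'' | h''
      · rw [← ind_add h' h'']; exact S.add_mem h1 h3
      · have := ind_add (p := p) h h''
        rw [eq_sub_of_add_eq this]
        exact S.sub_mem h1 h4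

theorem cells_sum (t h : ℝ) (hh : 0 ≤ h) (n : ℕ) :
    ∑ i ∈ range n, ind p (t + i * h) (t + (i + 1) * h) = ind p t (t + n * h) := by
  induction n with
  | zero => simp [ind_eq_zero]
  | succ n ih =>
    rw [sum_range_succ, ih, ind_add]
    · push_cast; rfl
    · have : 0 ≤ (n : ℝ) * h := by positivity
      linarith
    · linarith

theorem cells_mem_van (t h : ℝ) (hh : 0 ≤ h) (n : ℕ) (c : ℕ → ℝ) {s : Set ℝ}
    (hs : ∀ x ∈ s, ¬ (t ≤ x ∧ x < t + n * h)) :
    ∑ i ∈ range n, c i • ind p (t + i * h) (t + (i + 1) * h) ∈ van p s := by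
  refine Submodule.sum_mem _ fun i hi => Submodule.smul_mem _ _ (ind_mem_van fun x hx h1 => ?_)
  have h2 : (i : ℝ) + 1 ≤ n := by exact_mod_cast mem_range.1 hi
  have h3 : 0 ≤ (i : ℝ) * h := by positivity
  refine hs x hx ⟨by linarith [h1.1], ?_⟩
  have : ((i : ℝ) + 1) * h ≤ n * h := mul_le_mul_of_nonneg_right h2 hh
  linarith [h1.2]

/-- The nonnegative functions. -/
def posCone (p : ℝ≥0∞) : Set (Lp ℝ p (volume : Measure ℝ)) := {f | ∀ᵐ x, 0 ≤ f x}

theorem posCone_add {f g : Lp ℝ p (volume : Measure ℝ)} (hf : f ∈ posCone p) (hg : g ∈ posCone p) :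
    f + g ∈ posCone p := by
  filter_upwards [hf, hg, Lp.coeFn_add f g] with x h1 h2 h3
  rw [h3, Pi.add_apply]; exact add_nonneg h1 h2

theorem posCone_smul {f : Lp ℝ p (volume : Measure ℝ)} {c : ℝ} (hc : 0 ≤ c) (hf : f ∈ posCone p) :
    c • f ∈ posCone p := by
  filter_upwards [hf, Lp.coeFn_smul c f] with x h1 h3
  rw [h3, Pi.smul_apply]; exact mul_nonneg hc h1

theorem posCone_zero : (0 : Lp ℝ p (volume : Measure ℝ)) ∈ posCone p := by
  filter_upwards [Lp.coeFn_zero ℝ p (volume : Measure ℝ)] with x h1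
  rw [h1, Pi.zero_apply]

theorem posCone_sum (s : Finset ℕ) (f : ℕ → Lp ℝ p (volume : Measure ℝ))
    (hf : ∀ i ∈ s, f i ∈ posCone p) : ∑ i ∈ s, f i ∈ posCone p :=
  sum_induction f (fun g => g ∈ posCone p) (fun _ _ => posCone_add) posCone_zero hf

theorem posCone_add_ne_zero {f g : Lp ℝ p (volume : Measure ℝ)} (hf : f ∈ posCone p)
    (hg : g ∈ posCone p) (h : f ≠ 0) : f + g ≠ 0 := by
  intro h0
  apply h
  refine Lp.ext ?_
  have h1 := Lp.coeFn_add f g
  rw [h0] at h1
  filter_upwards [hf, hg, h1, Lp.coeFn_zero ℝ p (volume : Measure ℝ)] with x e1 e2 e3 e4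
  rw [e4] at e3 ⊢
  rw [Pi.add_apply, Pi.zero_apply] at e3
  rw [Pi.zero_apply]
  linarith

variable [Fact (1 ≤ p)]

theorem p_ne_zero : p ≠ 0 := (one_pos.trans_le (Fact.out : 1 ≤ p)).ne'

theorem norm_rpow_eq (hp : p ≠ ∞) (f : Lp ℝ p (volume : Measure ℝ)) :
    ‖f‖ ^ p.toReal = ∫ x, ‖f x‖ ^ p.toReal := by
  have h0 : 0 < p.toReal := ENNReal.toReal_pos p_ne_zero hp
  have h1 : 0 ≤ ∫ x, ‖f x‖ ^ p.toReal := integral_nonneg fun x => by positivity
  rw [Lp.norm_def, (Lp.memLp f).eLpNorm_eq_integral_rpow_norm p_ne_zero hp,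
    ENNReal.toReal_ofReal (by positivity), ← Real.rpow_mul h1, inv_mul_cancel₀ h0.ne',
    Real.rpow_one]

theorem norm_add_rpow_of_van (hp : p ≠ ∞) {s : Set ℝ} {f g : Lp ℝ p (volume : Measure ℝ)}
    (hf : f ∈ van p s) (hg : g ∈ van p sᶜ) :
    ‖f + g‖ ^ p.toReal = ‖f‖ ^ p.toReal + ‖g‖ ^ p.toReal := by
  have h0 : 0 < p.toReal := ENNReal.toReal_pos p_ne_zero hp
  rw [norm_rpow_eq hp, norm_rpow_eq hp, norm_rpow_eq hp,
    ← integral_add ((Lp.memLp f).integrable_norm_rpow p_ne_zero hp)
      ((Lp.memLp g).integrable_norm_rpow p_ne_zero hp)]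
  refine integral_congr_ae ?_
  filter_upwards [hf, hg, Lp.coeFn_add f g] with x h1 h2 h3
  rw [h3, Pi.add_apply]
  by_cases hx : x ∈ s
  · rw [h1 hx, zero_add, norm_zero, Real.zero_rpow h0.ne', zero_add]
  · rw [h2 hx, add_zero, norm_zero, Real.zero_rpow h0.ne', add_zero]

theorem norm_smul_ind_rpow (hp : p ≠ ∞) {a b : ℝ} (hab : a ≤ b) (c : ℝ) :
    ‖c • ind p a b‖ ^ p.toReal = |c| ^ p.toReal * (b - a) := by
  have h0 : 0 < p.toReal := ENNReal.toReal_pos p_ne_zero hp
  rw [norm_smul, ind, norm_indicatorConstLp p_ne_zero hp, Real.volume_real_Ico_of_le hab,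
    norm_one, one_mul, Real.mul_rpow (norm_nonneg _) (by have := sub_nonneg.2 hab; positivity),
    ← Real.rpow_mul (sub_nonneg.2 hab), one_div_mul_cancel h0.ne', Real.rpow_one, Real.norm_eq_abs]

theorem ind_ne_zero (hp : p ≠ ∞) {a b : ℝ} (hab : a < b) : ind p a b ≠ 0 := by
  have h0 : 0 < p.toReal := ENNReal.toReal_pos p_ne_zero hp
  intro h
  have := norm_smul_ind_rpow hp hab.le 1
  rw [h, smul_zero, norm_zero, Real.zero_rpow h0.ne', abs_one, Real.one_rpow] at this
  linarith

theorem norm_cells_rpow (hp : p ≠ ∞) (t h : ℝ) (hh : 0 ≤ h) (n : ℕ) (c : ℕ → ℝ) :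
    ‖∑ i ∈ range n, c i • ind p (t + i * h) (t + (i + 1) * h)‖ ^ p.toReal =
      h * ∑ i ∈ range n, |c i| ^ p.toReal := by
  have h0 : 0 < p.toReal := ENNReal.toReal_pos p_ne_zero hp
  induction n with
  | zero => simp [Real.zero_rpow h0.ne']
  | succ n ih =>
    rw [sum_range_succ, sum_range_succ, norm_add_rpow_of_van hp (s := Set.Ici (t + n * h)), ih,
      norm_smul_ind_rpow hp (by linarith)]
    · ring
    · exact cells_mem_van t h hh n c fun x hx h1 => by
        have : t + n * h ≤ x := hx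
        linarith [h1.2]
    · refine Submodule.smul_mem _ _ (ind_mem_van fun x hx h1 => ?_)
      exact hx h1.1

/-- Rational intervals span a dense subspace. -/
theorem eq_top_of_ind_mem (hp : p ≠ ∞) (S : Submodule ℝ (Lp ℝ p (volume : Measure ℝ)))
    (hS : IsClosed (S : Set (Lp ℝ p (volume : Measure ℝ))))
    (hind : ∀ a b : ℚ, ind p a b ∈ S) (f : Lp ℝ p (volume : Measure ℝ)) : f ∈ S := by
  have hcongr : ∀ {s t : Set ℝ} (hs : MeasurableSet s) (hμs : volume s ≠ ∞) (ht : MeasurableSet t)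
      (hμt : volume t ≠ ∞), s = t → indicatorConstLp p hs hμs (1 : ℝ) ∈ S →
      indicatorConstLp p ht hμt (1 : ℝ) ∈ S := by
    intro s t hs hμs ht hμt hst h
    subst hst
    exact h
  have hlim : ∀ (t : ℕ → Set ℝ) (ht : ∀ n, MeasurableSet (t n)) (_ : Monotone t)
      (hμ : volume (⋃ n, t n) ≠ ∞),
      (∀ n, indicatorConstLp p (ht n)
        (ne_top_of_le_ne_top hμ (measure_mono (Set.subset_iUnion t n))) (1 : ℝ) ∈ S) →
      indicatorConstLp p (MeasurableSet.iUnion ht) hμ (1 : ℝ) ∈ S := by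
    intro t ht hmono hμ h
    refine hS.mem_of_tendsto (tendsto_indicatorConstLp_set (l := atTop) (t := t) (ht := ht)
      (hμt := fun n => ne_top_of_le_ne_top hμ (measure_mono (Set.subset_iUnion t n))) hp ?_)
      (Eventually.of_forall h)
    have h1 : Tendsto (fun n => volume (⋃ n, t n) - volume (t n)) atTop
        (𝓝 (volume (⋃ n, t n) - volume (⋃ n, t n))) :=
      ENNReal.Tendsto.sub tendsto_const_nhds (tendsto_measure_iUnion_atTop hmono) (Or.inl hμ)
    rw [tsub_self] at h1
    refine h1.congr fun n => ?_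
    rw [symmDiff_of_le (Set.subset_iUnion t n), measure_sdiff (Set.subset_iUnion t n)
      (ht n).nullMeasurableSet (ne_top_of_le_ne_top hμ (measure_mono (Set.subset_iUnion t n)))]
  have hJ : ∀ (n : ℕ) (s : Set ℝ), volume (s ∩ Set.Ico (-(n : ℝ)) n) ≠ ∞ := fun n s =>
    ne_top_of_le_ne_top measure_Ico_lt_top.ne (measure_mono Set.inter_subset_right)
  have hloc : ∀ (n : ℕ) (s : Set ℝ) (hs : MeasurableSet s),
      indicatorConstLp p (hs.inter measurableSet_Ico) (hJ n s) (1 : ℝ) ∈ S := by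
    intro n s hs
    induction s, hs using MeasurableSpace.induction_on_inter
      (BorelSpace.measurable_eq.trans Real.borel_eq_generateFrom_Iio_rat)
      Real.isPiSystem_Iio_rat with
    | empty =>
      refine hcongr MeasurableSet.empty (by simp) _ _ (by simp) ?_
      rw [indicatorConstLp_empty]; exact S.zero_mem
    | basic t ht =>
      simp only [Set.mem_iUnion, Set.mem_singleton_iff] at ht
      obtain ⟨q, rfl⟩ := ht
      refine hcongr measurableSet_Ico measure_Ico_lt_top.ne _ _ ?_ (hind (-n) (min q n))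
      ext x
      simp only [Set.mem_Ico, Set.mem_inter_iff, Set.mem_Iio]
      push_cast
      rw [lt_min_iff]
      tauto
    | compl t ht ih =>
      have h1 := indicatorConstLp_disjoint_union (p := p) (μ := (volume : Measure ℝ))
        (ht.inter measurableSet_Ico) (ht.compl.inter measurableSet_Ico) (hJ n t) (hJ n tᶜ)
        (Disjoint.inter_left _ (Disjoint.inter_right _ disjoint_compl_right)) (1 : ℝ)
      rw [eq_sub_of_add_eq' h1.symm]
      refine S.sub_mem ?_ ih
      refine hcongr measurableSet_Ico measure_Ico_lt_top.ne _ _ ?_ (hind (-n) n)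
      rw [← Set.union_inter_distrib_right, Set.union_compl_self, Set.univ_inter]
      push_cast
      rfl
    | iUnion g hdis hg ih =>
      have h1 : ∀ m : ℕ, indicatorConstLp p
          ((Finset.measurableSet_biUnion (range m) fun i _ => hg i).inter measurableSet_Ico)
          (hJ n (⋃ i ∈ range m, g i)) (1 : ℝ) ∈ S := by
        intro m
        induction m with
        | zero =>
          refine hcongr MeasurableSet.empty (by simp) _ _ (by simp) ?_
          rw [indicatorConstLp_empty]; exact S.zero_mem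
        | succ m ihm =>
          have h2 := indicatorConstLp_disjoint_union (p := p) (μ := (volume : Measure ℝ))
            ((Finset.measurableSet_biUnion (range m) fun i _ => hg i).inter measurableSet_Ico)
            ((hg m).inter measurableSet_Ico) (hJ n _) (hJ n _)
            (Disjoint.inter_left _ (Disjoint.inter_right _ (by
              rw [Set.disjoint_iUnion₂_left]
              intro i hi
              exact hdis (mem_range.1 hi).ne))) (1 : ℝ)
          have h3 := S.add_mem ihm (ih m)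
          rw [← h2] at h3
          refine hcongr _ _ _ _ ?_ h3
          rw [← Set.union_inter_distrib_right, range_add_one, Finset.set_biUnion_insert,
            Set.union_comm]
      have h4 : (⋃ m : ℕ, (⋃ i ∈ range m, g i) ∩ Set.Ico (-(n : ℝ)) n) =
          (⋃ i, g i) ∩ Set.Ico (-(n : ℝ)) n := by
        rw [← Set.iUnion_inter]
        congr 1
        ext x
        simp only [Set.mem_iUnion, mem_range]
        exact ⟨fun ⟨_, i, _, h⟩ => ⟨i, h⟩, fun ⟨i, h⟩ => ⟨i + 1, i, Nat.lt_succ_self i, h⟩⟩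
      refine hcongr _ _ _ _ h4 (hlim (fun m => (⋃ i ∈ range m, g i) ∩ Set.Ico (-(n : ℝ)) n)
        (fun m => (Finset.measurableSet_biUnion (range m) fun i _ => hg i).inter measurableSet_Ico)
        ?_ (h4 ▸ hJ n _) h1)
      intro m m' hm
      refine Set.inter_subset_inter_left _ ?_
      exact Set.biUnion_subset_biUnion_left (by exact_mod_cast range_subset_range.2 hm)
  have hall : ∀ (s : Set ℝ) (hs : MeasurableSet s) (hμ : volume s ≠ ∞),
      indicatorConstLp p hs hμ (1 : ℝ) ∈ S := by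
    intro s hs hμ
    have h4 : (⋃ n : ℕ, s ∩ Set.Ico (-(n : ℝ)) n) = s := by
      rw [← Set.inter_iUnion]
      refine Set.inter_eq_left.2 fun x _ => ?_
      obtain ⟨n, hn⟩ := exists_nat_gt |x|
      rw [abs_lt] at hn
      exact Set.mem_iUnion.2 ⟨n, hn.1.le, hn.2⟩
    refine hcongr _ _ _ _ h4 (hlim (fun n => s ∩ Set.Ico (-(n : ℝ)) n)
      (fun n => hs.inter measurableSet_Ico) ?_ (h4.symm ▸ hμ) fun n => hloc n s hs)
    intro m m' hm
    have : (m : ℝ) ≤ m' := by exact_mod_cast hm
    exact Set.inter_subset_inter_right _ (Set.Ico_subset_Ico (by linarith) this)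
  induction f using Lp.induction hp with
  | indicatorConst c hs hμs =>
    rw [Lp.simpleFunc.coe_indicatorConst]
    have : indicatorConstLp p hs hμs.ne c = c • indicatorConstLp p hs hμs.ne (1 : ℝ) := by
      refine Lp.ext ?_
      filter_upwards [indicatorConstLp_coeFn (p := p) (hs := hs) (hμs := hμs.ne) (c := c),
        indicatorConstLp_coeFn (p := p) (hs := hs) (hμs := hμs.ne) (c := (1 : ℝ)),
        Lp.coeFn_smul c (indicatorConstLp p hs hμs.ne (1 : ℝ))] with x e1 e2 e3
      classical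
      rw [e1, e3, Pi.smul_apply, e2, Set.indicator_apply, Set.indicator_apply]
      split_ifs <;> simp
    rw [this]
    exact S.smul_mem _ (hall _ hs _)
  | add hf hg _ h1 h2 => exact S.add_mem h1 h2
  | isClosed => exact hS

end Pool.Agent.MP_ada34c_an
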