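import Mathlib

namespace Pool.Agent.MP_ada34c_an

open Filter Topology Finset

/-- Interleaving `x 0, y 0, x 1, y 1, ..., x (N-1), y (N-1), y N, ..., y (2N-1)`. -/
theorem exists_interleave {X : Type*} [AddCommGroup X] [Module ℝ X] (N : ℕ) (x y : ℕ → X) :
    ∃ blk : ℕ → X, (∀ r < 3 * N, (∃ i < N, blk r = x i) ∨ (∃ j < 2 * N, blk r = y j)) ∧
      (∀ i < N, ∃ r < 3 * N, blk r = x i) ∧ (∀ j < 2 * N, ∃ r < 3 * N, blk r = y j) ∧
      ∀ c : ℕ → ℝ, ∃ a b : ℕ → ℝ,
        ∑ r ∈ range (3 * N), c r • blk r =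
          ∑ i ∈ range N, a i • x i + ∑ j ∈ range (2 * N), b j • y j ∧
        ∀ m ≤ 3 * N, ∃ k l : ℕ, k ≤ N ∧ l ≤ 2 * N ∧ k ≤ l + 1 ∧ (l ≤ k ∨ k = N) ∧
          ∑ r ∈ range m, c r • blk r = ∑ i ∈ range k, a i • x i + ∑ j ∈ range l, b j • y j := by
  let blk : ℕ → X := fun r => if r < 2 * N then (if r % 2 = 0 then x (r / 2) else y (r / 2))
    else y (r - N)
  refine ⟨blk, fun r hr => ?_, fun i hi => ?_, fun j hj => ?_, fun c => ?_⟩
  · by_cases h1 : r < 2 * N
    · by_cases h2 : r % 2 = 0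
      · exact Or.inl ⟨r / 2, by omega, by simp only [blk, h1, h2, if_true]⟩
      · exact Or.inr ⟨r / 2, by omega, by simp only [blk, h1, h2, if_true, if_false]⟩
    · exact Or.inr ⟨r - N, by omega, by simp only [blk, h1, if_false]⟩
  · refine ⟨2 * i, by omega, ?_⟩
    have h1 : 2 * i < 2 * N := by omega
    have h2 : 2 * i % 2 = 0 := by omega
    have h3 : 2 * i / 2 = i := by omega
    simp only [blk, h1, h2, h3, if_true]
  · by_cases h : j < N
    · refine ⟨2 * j + 1, by omega, ?_⟩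
      have h1 : 2 * j + 1 < 2 * N := by omega
      have h2 : ¬ ((2 * j + 1) % 2 = 0) := by omega
      have h3 : (2 * j + 1) / 2 = j := by omega
      simp only [blk, h1, h2, h3, if_true, if_false]
    · refine ⟨j + N, by omega, ?_⟩
      have h1 : ¬ (j + N < 2 * N) := by omega
      simp only [blk, h1, if_false, Nat.add_sub_cancel]
  · let a : ℕ → ℝ := fun i => c (2 * i)
    let b : ℕ → ℝ := fun j => if j < N then c (2 * j + 1) else c (j + N)
    have h1 : ∀ i ≤ N, ∑ r ∈ range (2 * i), c r • blk r =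
        ∑ i ∈ range i, a i • x i + ∑ j ∈ range i, b j • y j := by
      intro i
      induction i with
      | zero => simp
      | succ i ih =>
        intro hi
        have e1 : 2 * i < 2 * N := by omega
        have e2 : 2 * i % 2 = 0 := by omega
        have e3 : 2 * i / 2 = i := by omega
        have e4 : 2 * i + 1 < 2 * N := by omega
        have e5 : ¬ ((2 * i + 1) % 2 = 0) := by omega
        have e6 : (2 * i + 1) / 2 = i := by omega
        have e7 : i < N := by omega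
        rw [show 2 * (i + 1) = 2 * i + 1 + 1 by ring, sum_range_succ, sum_range_succ,
          ih (by omega), sum_range_succ, sum_range_succ]
        simp only [blk, a, b, e1, e2, e3, e4, e5, e6, e7, if_true, if_false]
        abel
    have h2 : ∀ t, ∑ r ∈ range (2 * N + t), c r • blk r =
        ∑ i ∈ range N, a i • x i + ∑ j ∈ range (N + t), b j • y j := by
      intro t
      induction t with
      | zero => simpa using h1 N le_rfl
      | succ t ih =>
        have e1 : ¬ (2 * N + t < 2 * N) := by omega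
        have e2 : ¬ (N + t < N) := by omega
        have e3 : 2 * N + t - N = N + t := by omega
        have e4 : N + t + N = 2 * N + t := by omega
        rw [← add_assoc, ← add_assoc, sum_range_succ, ih, sum_range_succ]
        simp only [blk, b, e1, e2, e3, e4, if_false]
        abel
    refine ⟨a, b, ?_, fun m hm => ?_⟩
    · have := h2 N
      rwa [show 2 * N + N = 3 * N by ring, show N + N = 2 * N by ring] at this
    · by_cases h3 : 2 * N ≤ m
      · obtain ⟨t, rfl⟩ := Nat.exists_eq_add_of_le h3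
        exact ⟨N, N + t, le_rfl, by omega, by omega, Or.inr rfl, h2 t⟩
      · rcases Nat.even_or_odd' m with ⟨i, rfl | rfl⟩
        · exact ⟨i, i, by omega, by omega, by omega, Or.inl le_rfl, h1 i (by omega)⟩
        · refine ⟨i + 1, i, by omega, by omega, le_rfl, Or.inl (by omega), ?_⟩
          have e1 : 2 * i < 2 * N := by omega
          have e2 : 2 * i % 2 = 0 := by omega
          have e3 : 2 * i / 2 = i := by omega
          rw [sum_range_succ, h1 i (by omega), sum_range_succ]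
          simp only [blk, a, e1, e2, e3, if_true]
          abel

/-- One admissible extension step from the space `F` to the space `F'`. -/
def IsStep {X : Type*} [NormedAddCommGroup X] [NormedSpace ℝ X] (P : Set X)
    (F F' : Submodule ℝ X) (L : ℝ) : Prop :=
  F ≤ F' ∧ ∃ (m : ℕ) (blk : ℕ → X), 0 < m ∧ (∀ r < m, blk r ∈ P ∧ blk r ≠ 0 ∧ blk r ∈ F') ∧
    (∀ S : Submodule ℝ X, F ≤ S → (∀ r < m, blk r ∈ S) → F' ≤ S) ∧
    ∀ f ∈ F, ∀ c : ℕ → ℝ, ‖f‖ ≤ (1 + 1 / L) * ‖f + ∑ r ∈ range m, c r • blk r‖ ∧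
      ∀ n ≤ m, ‖f + ∑ r ∈ range n, c r • blk r‖ ≤ 16 * ‖f + ∑ r ∈ range m, c r • blk r‖

/-- Invariant of the inductive construction. -/
def Good {X : Type*} [NormedAddCommGroup X] [NormedSpace ℝ X] (P : Set X)
    (F : Submodule ℝ X) (k : ℕ) (x : ℕ → X) : Prop :=
  (∀ i < k, x i ∈ P ∧ x i ≠ 0 ∧ x i ∈ F) ∧
    (∀ S : Submodule ℝ X, (∀ i < k, x i ∈ S) → F ≤ S) ∧
    ∃ c : ℝ, 16 ≤ c ∧ c < 17 ∧ ∀ (a : ℕ → ℝ) (m : ℕ), m ≤ k →
      ‖∑ i ∈ range m, a i • x i‖ ≤ c * ‖∑ i ∈ range k, a i • x i‖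

theorem Good.extend {X : Type*} [NormedAddCommGroup X] [NormedSpace ℝ X] {P : Set X}
    {F : Submodule ℝ X} {k : ℕ} {x : ℕ → X} (hG : Good P F k x) :
    ∃ L : ℝ, 1 ≤ L ∧ ∀ F' : Submodule ℝ X, IsStep P F F' L →
      ∃ (k' : ℕ) (x' : ℕ → X), k < k' ∧ (∀ i < k, x' i = x i) ∧ Good P F' k' x' := by
  obtain ⟨hG1, hG2, c, hc1, hc2, hG3⟩ := hG
  have hpos : 0 < 17 - c := by linarith
  refine ⟨34 / (17 - c), ?_, ?_⟩
  · rw [le_div_iff₀ hpos]; linarith
  rintro F' ⟨hFF', m, blk, hm, hb1, hb2, hb3⟩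
  let x' : ℕ → X := fun i => if i < k then x i else blk (i - k)
  have hx1 : ∀ i < k, x' i = x i := fun i hi => by simp only [x', hi, if_true]
  have hx2 : ∀ r, x' (k + r) = blk r := fun r => by
    have : ¬ (k + r < k) := by omega
    simp only [x', this, if_false, Nat.add_sub_cancel_left]
  have hsum1 : ∀ (a : ℕ → ℝ) (n : ℕ), n ≤ k →
      ∑ i ∈ range n, a i • x' i = ∑ i ∈ range n, a i • x i := by
    intro a n hn
    refine sum_congr rfl fun i hi => ?_
    rw [hx1 i (by have := mem_range.1 hi; omega)]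
  have hsum2 : ∀ (a : ℕ → ℝ) (n : ℕ), ∑ i ∈ range (k + n), a i • x' i =
      ∑ i ∈ range k, a i • x i + ∑ r ∈ range n, a (k + r) • blk r := by
    intro a n
    rw [sum_range_add, hsum1 a k le_rfl]
    simp only [hx2]
  refine ⟨k + m, x', by omega, hx1, fun i hi => ?_, fun S hS => ?_, c * (1 + 1 / (34 / (17 - c))),
    ?_, ?_, fun a n hn => ?_⟩
  · by_cases h : i < k
    · rw [hx1 i h]
      exact ⟨(hG1 i h).1, (hG1 i h).2.1, hFF' (hG1 i h).2.2⟩
    · obtain ⟨r, rfl⟩ := Nat.exists_eq_add_of_le (not_lt.1 h)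
      rw [hx2]
      exact hb1 r (by omega)
  · refine hb2 S (hG2 S fun i hi => ?_) fun r hr => ?_
    · rw [← hx1 i hi]; exact hS i (by omega)
    · rw [← hx2]; exact hS _ (by omega)
  · have : 0 < 1 / (34 / (17 - c)) := by positivity
    nlinarith
  · rw [one_div_div]
    nlinarith
  · have hf : ∑ i ∈ range k, a i • x i ∈ F :=
      F.sum_mem fun i hi => F.smul_mem _ (hG1 i (mem_range.1 hi)).2.2
    obtain ⟨h1, h2⟩ := hb3 _ hf (fun r => a (k + r))
    rw [hsum2]
    by_cases h : n ≤ k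
    · rw [hsum1 a n h, mul_assoc]
      exact (hG3 a n h).trans (mul_le_mul_of_nonneg_left h1 (by linarith))
    · obtain ⟨t, rfl⟩ := Nat.exists_eq_add_of_le (not_le.1 h).le
      rw [hsum2]
      refine (h2 t (by omega)).trans (mul_le_mul_of_nonneg_right ?_ (norm_nonneg _))
      have : 0 < 1 / (34 / (17 - c)) := by positivity
      nlinarith

theorem glue {X : Type*} [NormedAddCommGroup X] [NormedSpace ℝ X] (P : Set X) {σ : Type*}
    (F : σ → Submodule ℝ X) (rel : ℕ → σ → σ → Prop) (T0 : σ) (h0 : F T0 = ⊥)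
    (step : ∀ (n : ℕ) (T : σ) (L : ℝ), 1 ≤ L → ∃ T', rel n T T' ∧ IsStep P (F T) (F T') L) :
    ∃ (x : ℕ → X) (T : ℕ → σ), (∀ n, rel n (T n) (T (n + 1))) ∧ (∀ i, x i ∈ P ∧ x i ≠ 0) ∧
      (∀ n, F (T n) ≤ Submodule.span ℝ (Set.range x)) ∧
      ∀ (a : ℕ → ℝ) (m l : ℕ), m ≤ l →
        ‖∑ i ∈ range m, a i • x i‖ ≤ 17 * ‖∑ i ∈ range l, a i • x i‖ := by
  let St := {s : ℕ × (ℕ → X) × σ // Good P (F s.2.2) s.1 s.2.1}
  have hnext : ∀ (n : ℕ) (s : St), ∃ s' : St, s.1.1 < s'.1.1 ∧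
      (∀ i < s.1.1, s'.1.2.1 i = s.1.2.1 i) ∧ rel n s.1.2.2 s'.1.2.2 := by
    rintro n ⟨⟨k, x, T⟩, hG⟩
    obtain ⟨L, hL, hext⟩ := hG.extend
    obtain ⟨T', hrel, hstep⟩ := step n T L hL
    obtain ⟨k', x', h1, h2, h3⟩ := hext _ hstep
    exact ⟨⟨⟨k', x', T'⟩, h3⟩, h1, h2, hrel⟩
  choose nxt hn1 hn2 hn3 using hnext
  have hs0 : Good P (F T0) 0 (fun _ => 0) := by
    refine ⟨fun i hi => absurd hi (Nat.not_lt_zero i), fun S _ => by rw [h0]; exact bot_le,
      16, le_rfl, by norm_num, fun a m hm => by simp⟩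
  let seq : ℕ → St := fun n => Nat.rec ⟨⟨0, fun _ => 0, T0⟩, hs0⟩ (fun n s => nxt n s) n
  have hseq : ∀ n, seq (n + 1) = nxt n (seq n) := fun n => rfl
  have hk : ∀ n, n ≤ (seq n).1.1 := by
    intro n
    induction n with
    | zero => exact Nat.zero_le _
    | succ n ih => have := hn1 n (seq n); rw [← hseq] at this; omega
  have hcons : ∀ n t, (seq n).1.1 ≤ (seq (n + t)).1.1 ∧
      ∀ i < (seq n).1.1, (seq (n + t)).1.2.1 i = (seq n).1.2.1 i := by
    intro n t
    induction t with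
    | zero => exact ⟨le_rfl, fun i _ => rfl⟩
    | succ t ih =>
      have h1 := hn1 (n + t) (seq (n + t))
      have h2 := hn2 (n + t) (seq (n + t))
      rw [← hseq] at h1 h2
      refine ⟨ih.1.trans h1.le, fun i hi => ?_⟩
      rw [← add_assoc, h2 i (lt_of_lt_of_le hi ih.1), ih.2 i hi]
  let x : ℕ → X := fun i => (seq (i + 1)).1.2.1 i
  have hx : ∀ n, ∀ i < (seq n).1.1, (seq n).1.2.1 i = x i := by
    intro n i hi
    have h1 := (hcons n (i + 1)).2 i hi
    have h2 := (hcons (i + 1) n).2 i (by have := hk (i + 1); omega)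
    rw [← h1, add_comm n (i + 1), h2]
  refine ⟨x, fun n => (seq n).1.2.2, fun n => ?_, fun i => ?_, fun n => ?_, fun a m l hml => ?_⟩
  · have := hn3 n (seq n)
    rwa [← hseq] at this
  · have h1 := (seq (i + 1)).2.1 i (by have := hk (i + 1); omega)
    exact ⟨h1.1, h1.2.1⟩
  · refine (seq n).2.2.1 _ fun i hi => ?_
    rw [hx n i hi]
    exact Submodule.subset_span ⟨i, rfl⟩
  · obtain ⟨c, -, hc, h⟩ := (seq l).2.2.2
    have hl := hk l
    have h1 := h (fun i => if i < l then a i else 0) m (by omega)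
    have e1 : ∑ i ∈ range m, (if i < l then a i else 0) • (seq l).1.2.1 i =
        ∑ i ∈ range m, a i • x i := by
      refine sum_congr rfl fun i hi => ?_
      have := mem_range.1 hi
      rw [if_pos (by omega), hx l i (by omega)]
    have e2 : ∑ i ∈ range (seq l).1.1, (if i < l then a i else 0) • (seq l).1.2.1 i =
        ∑ i ∈ range l, a i • x i := by
      rw [← sum_subset (range_subset_range.2 hl)]
      · refine sum_congr rfl fun i hi => ?_
        have := mem_range.1 hi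
        rw [if_pos this, hx l i (by omega)]
      · intro i _ hi
        rw [if_neg (by simpa using hi), zero_smul]
    rw [e1, e2] at h1
    exact h1.trans (mul_le_mul_of_nonneg_right hc.le (norm_nonneg _))

end Pool.Agent.MP_ada34c_an
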