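import Mathlib

namespace Pool.Agent.MP_ada34c_an

open Filter Topology Finset

/-- A sequence of nonzero vectors with uniformly bounded initial sum maps and dense span is a
Schauder basis. -/
theorem schauder_of_basic {X : Type*} [NormedAddCommGroup X] [NormedSpace ℝ X]
    (x : ℕ → X) (C : ℝ) (hne : ∀ n, x n ≠ 0)
    (hC : ∀ (a : ℕ → ℝ) (m l : ℕ), m ≤ l →
      ‖∑ i ∈ range m, a i • x i‖ ≤ C * ‖∑ i ∈ range l, a i • x i‖)
    (hd : Dense (Submodule.span ℝ (Set.range x) : Set X)) (g : X) :
    ∃! a : ℕ → ℝ, Tendsto (fun m => ∑ n ∈ range m, a n • x n) atTop (𝓝 g) := by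
  have hA : ∀ (a : ℕ → ℝ) (g : X), Tendsto (fun m => ∑ n ∈ range m, a n • x n) atTop (𝓝 g) →
      ∀ m, ‖∑ i ∈ range m, a i • x i‖ ≤ C * ‖g‖ := by
    intro a g h m
    have h1 : Tendsto (fun l => C * ‖∑ n ∈ range l, a n • x n‖) atTop (𝓝 (C * ‖g‖)) :=
      h.norm.const_mul C
    exact ge_of_tendsto h1 (eventually_atTop.2 ⟨m, fun l hl => hC a m l hl⟩)
  have hsub : ∀ (a b : ℕ → ℝ) (g h : X),
      Tendsto (fun m => ∑ n ∈ range m, a n • x n) atTop (𝓝 g) →
      Tendsto (fun m => ∑ n ∈ range m, b n • x n) atTop (𝓝 h) →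
      Tendsto (fun m => ∑ n ∈ range m, (a n - b n) • x n) atTop (𝓝 (g - h)) := by
    intro a b g h ha hb
    refine (ha.sub hb).congr fun m => ?_
    simp only [sub_smul, sum_sub_distrib]
  have hB : ∀ (a : ℕ → ℝ) (g : X), Tendsto (fun m => ∑ n ∈ range m, a n • x n) atTop (𝓝 g) →
      ∀ n, |a n| ≤ 2 * C / ‖x n‖ * ‖g‖ := by
    intro a g h n
    have hpos : 0 < ‖x n‖ := norm_pos_iff.2 (hne n)
    have h1 := hA a g h n
    have h2 := hA a g h (n + 1)
    have h3 : a n • x n = ∑ i ∈ range (n + 1), a i • x i - ∑ i ∈ range n, a i • x i := by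
      rw [sum_range_succ]; abel
    have h4 : ‖a n • x n‖ ≤ 2 * C * ‖g‖ := by
      rw [h3]
      refine (norm_sub_le _ _).trans ?_
      linarith
    rw [norm_smul, Real.norm_eq_abs] at h4
    rw [div_mul_eq_mul_div, le_div_iff₀ hpos]
    exact h4
  refine existsUnique_of_exists_of_unique ?_ ?_
  · let E : Submodule ℝ X :=
      { carrier := {g | ∃ a : ℕ → ℝ, Tendsto (fun m => ∑ n ∈ range m, a n • x n) atTop (𝓝 g)}
        add_mem' := by
          rintro g h ⟨a, ha⟩ ⟨b, hb⟩
          refine ⟨fun n => a n + b n, (ha.add hb).congr fun m => ?_⟩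
          simp only [add_smul, sum_add_distrib]
        zero_mem' := ⟨fun _ => 0, by simp⟩
        smul_mem' := by
          rintro c g ⟨a, ha⟩
          refine ⟨fun n => c * a n, (ha.const_smul c).congr fun m => ?_⟩
          simp only [mul_smul, smul_sum] }
    have hE : Submodule.span ℝ (Set.range x) ≤ E := by
      rw [Submodule.span_le]
      rintro _ ⟨k, rfl⟩
      refine ⟨fun n => if n = k then 1 else 0, ?_⟩
      refine tendsto_const_nhds.congr' (eventually_atTop.2 ⟨k + 1, fun l hl => ?_⟩)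
      have hk : k ∈ range l := mem_range.2 (by omega)
      simp [ite_smul, hk]
    have hcl : IsClosed (E : Set X) := by
      refine IsSeqClosed.isClosed ?_
      intro u g hu hg
      choose a ha using hu
      have hcauchy : ∀ n, CauchySeq (fun k => a k n) := by
        intro n
        have hgc : CauchySeq u := hg.cauchySeq
        rw [Metric.cauchySeq_iff] at hgc ⊢
        intro ε hε
        obtain ⟨N, hN⟩ := hgc (ε / (|2 * C / ‖x n‖| + 1)) (by positivity)
        refine ⟨N, fun k hk k' hk' => ?_⟩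
        have h1 := hB _ _ (hsub _ _ _ _ (ha k) (ha k')) n
        have h2 := hN k hk k' hk'
        rw [dist_eq_norm] at h2
        rw [Real.dist_eq]
        have h3 : 2 * C / ‖x n‖ * ‖u k - u k'‖ ≤ (|2 * C / ‖x n‖| + 1) * ‖u k - u k'‖ :=
          mul_le_mul_of_nonneg_right (by linarith [le_abs_self (2 * C / ‖x n‖)]) (norm_nonneg _)
        rw [lt_div_iff₀ (by positivity)] at h2
        linarith
      have hlim : ∀ n, ∃ b, Tendsto (fun k => a k n) atTop (𝓝 b) :=
        fun n => cauchySeq_tendsto_of_complete (hcauchy n)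
      choose b hb using hlim
      refine ⟨b, ?_⟩
      have hkey : ∀ k m, ‖∑ n ∈ range m, (b n - a k n) • x n‖ ≤ C * ‖g - u k‖ := by
        intro k m
        have h1 : Tendsto (fun k' => ‖∑ n ∈ range m, (a k' n - a k n) • x n‖) atTop
            (𝓝 ‖∑ n ∈ range m, (b n - a k n) • x n‖) := by
          refine Tendsto.norm ?_
          exact tendsto_finsetSum _ fun n _ => ((hb n).sub_const _).smul_const _
        have h2 : Tendsto (fun k' => C * ‖u k' - u k‖) atTop (𝓝 (C * ‖g - u k‖)) :=
          ((hg.sub_const _).norm).const_mul C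
        exact le_of_tendsto_of_tendsto' h1 h2 fun k' => hA _ _ (hsub _ _ _ _ (ha k') (ha k)) m
      rw [Metric.tendsto_atTop]
      intro ε hε
      obtain ⟨k, hk⟩ := Metric.tendsto_atTop.1 hg (ε / (2 * (|C| + 1))) (by positivity)
      have hk1 := hk k le_rfl
      obtain ⟨M, hM⟩ := Metric.tendsto_atTop.1 (ha k) (ε / 2) (by positivity)
      refine ⟨M, fun m hm => ?_⟩
      have h1 := hM m hm
      have h2 := hkey k m
      rw [dist_eq_norm] at h1 hk1 ⊢
      have h3 : ∑ n ∈ range m, b n • x n - g = ∑ n ∈ range m, (b n - a k n) • x n +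
          (∑ n ∈ range m, a k n • x n - u k) + (u k - g) := by
        simp only [sub_smul, sum_sub_distrib]; abel
      rw [h3]
      rw [norm_sub_rev] at h2
      rw [lt_div_iff₀ (by positivity)] at hk1
      have h4 : C * ‖u k - g‖ ≤ |C| * ‖u k - g‖ :=
        mul_le_mul_of_nonneg_right (le_abs_self C) (norm_nonneg _)
      calc _ ≤ ‖∑ n ∈ range m, (b n - a k n) • x n‖ + ‖∑ n ∈ range m, a k n • x n - u k‖ +
            ‖u k - g‖ := norm_add₃_le
        _ < ε := by nlinarith
    have : (E : Set X) = Set.univ := by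
      have h1 : Dense (E : Set X) := hd.mono hE
      rw [← hcl.closure_eq]; exact h1.closure_eq
    have hg : g ∈ (E : Set X) := this ▸ Set.mem_univ g
    exact hg
  · intro a b ha hb
    funext n
    have h1 := hB _ _ (hsub _ _ _ _ ha hb) n
    simp only [sub_self, norm_zero, mul_zero, abs_nonpos_iff] at h1
    linarith

end Pool.Agent.MP_ada34c_an
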