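import Mathlib
import Pool.Agent.MP_ada34c_an.Grunblum
import Pool.Agent.MP_ada34c_an.Block
import Pool.Agent.MP_ada34c_an.Glue
import Pool.Agent.MP_ada34c_an.Cells

namespace Pool.Agent.MP_ada34c_an

open Filter Topology Finset MeasureTheory
open scoped ENNReal

/-- Step functions with break points in `T`. -/
noncomputable def stepSpace (p : ℝ≥0∞) (T : Finset ℝ) :
    Submodule ℝ (Lp ℝ p (volume : Measure ℝ)) :=
  Submodule.span ℝ {f | ∃ s ∈ T, ∃ t ∈ T, f = ind p s t}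

variable {p : ℝ≥0∞}

theorem ind_mem_stepSpace {T : Finset ℝ} {s t : ℝ} (hs : s ∈ T) (ht : t ∈ T) :
    ind p s t ∈ stepSpace p T :=
  Submodule.subset_span ⟨s, hs, t, ht, rfl⟩

theorem stepSpace_le {T : Finset ℝ} {S : Submodule ℝ (Lp ℝ p (volume : Measure ℝ))}
    (h : ∀ s ∈ T, ∀ t ∈ T, ind p s t ∈ S) : stepSpace p T ≤ S := by
  refine Submodule.span_le.2 ?_
  rintro _ ⟨s, hs, t, ht, rfl⟩
  exact h s hs t ht

theorem stepSpace_mono {T T' : Finset ℝ} (h : T ⊆ T') : stepSpace p T ≤ stepSpace p T' :=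
  stepSpace_le fun _ hs _ ht => ind_mem_stepSpace (h hs) (h ht)

/-- Both intervals with end points `s`, `t` lie in `S`. -/
def Rel (S : Submodule ℝ (Lp ℝ p (volume : Measure ℝ))) (s t : ℝ) : Prop :=
  ind p s t ∈ S ∧ ind p t s ∈ S

theorem Rel.symm {S : Submodule ℝ (Lp ℝ p (volume : Measure ℝ))} {s t : ℝ} (h : Rel S s t) :
    Rel S t s := ⟨h.2, h.1⟩

theorem Rel.trans {S : Submodule ℝ (Lp ℝ p (volume : Measure ℝ))} {s t u : ℝ} (h : Rel S s t)
    (h' : Rel S t u) : Rel S s u :=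
  ⟨ind_trans h.1 h.2 h'.1 h'.2, ind_trans h'.2 h'.1 h.2 h.1⟩

theorem rel_of_le {S : Submodule ℝ (Lp ℝ p (volume : Measure ℝ))} {s t : ℝ} (hst : s ≤ t)
    (h : ind p s t ∈ S) : Rel S s t :=
  ⟨h, by rw [ind_eq_zero hst]; exact S.zero_mem⟩

theorem rel_of_mem {T : Finset ℝ} {S : Submodule ℝ (Lp ℝ p (volume : Measure ℝ))}
    (h : stepSpace p T ≤ S) {s t : ℝ} (hs : s ∈ T) (ht : t ∈ T) : Rel S s t :=
  ⟨h (ind_mem_stepSpace hs ht), h (ind_mem_stepSpace ht hs)⟩

theorem stepSpace_le_of_rel {T : Finset ℝ} {S : Submodule ℝ (Lp ℝ p (volume : Measure ℝ))}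
    (o : ℝ) (h : ∀ t ∈ T, Rel S o t) : stepSpace p T ≤ S :=
  stepSpace_le fun s hs t ht => ((h s hs).symm.trans (h t ht)).1

theorem rel_cells {S : Submodule ℝ (Lp ℝ p (volume : Measure ℝ))} (t h : ℝ) (hh : 0 ≤ h) (n : ℕ)
    (hS : ∀ i < n, ind p (t + i * h) (t + (i + 1) * h) ∈ S) {i : ℕ} (hi : i ≤ n) :
    Rel S t (t + i * h) := by
  refine rel_of_le (le_add_of_nonneg_right (by positivity)) ?_
  rw [← cells_sum t h hh i]
  exact S.sum_mem fun j hj => hS j (by have := mem_range.1 hj; omega)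

variable [Fact (1 ≤ p)]

theorem step_out (hp : p ≠ ∞) {T : Finset ℝ} {u v L : ℝ} (hL : 1 ≤ L) (huv : u < v)
    (h : (u ∈ T ∧ ∀ t ∈ T, t ≤ u) ∨ (v ∈ T ∧ ∀ t ∈ T, v ≤ t)) :
    IsStep (posCone p) (stepSpace p T) (stepSpace p (insert u (insert v T))) L := by
  have h0 : 0 < p.toReal := ENNReal.toReal_pos p_ne_zero hp
  refine ⟨stepSpace_mono ((subset_insert _ _).trans (subset_insert _ _)), 1, fun _ => ind p u v,
    one_pos, fun _ _ => ⟨ind_nonneg u v, ind_ne_zero hp huv,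
      ind_mem_stepSpace (by simp) (by simp)⟩, fun S hS hS' => ?_, fun f hf c => ?_⟩
  · have h1 : Rel S u v := rel_of_le huv.le (hS' 0 one_pos)
    refine stepSpace_le_of_rel u fun t ht => ?_
    simp only [mem_insert] at ht
    rcases ht with rfl | rfl | ht
    · exact h1.trans h1.symm
    · exact h1
    · rcases h with h | h
      · exact rel_of_mem hS h.1 ht
      · exact h1.trans (rel_of_mem hS h.1 ht)
  · have hf' : f ∈ van p (Set.Ico u v) := by
      refine stepSpace_le (fun s hs t ht => ind_mem_van fun x hx h1 => ?_) hf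
      rcases h with h | h
      · linarith [h.2 t ht, hx.1, h1.2]
      · linarith [h.2 s hs, hx.2, h1.1]
    have h1 : ‖f‖ ≤ ‖f + c 0 • ind p u v‖ := by
      refine (Real.rpow_le_rpow_iff (norm_nonneg _) (norm_nonneg _) h0).1 ?_
      rw [norm_add_rpow_of_van hp hf'
        (Submodule.smul_mem _ _ (ind_mem_van fun x hx h1 => hx h1))]
      exact le_add_of_nonneg_right (by positivity)
    have h2 := norm_nonneg (f + c 0 • ind p u v)
    have h3 : 0 ≤ 1 / L := by positivity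
    rw [sum_range_one]
    refine ⟨by nlinarith, fun n hn => ?_⟩
    rcases Nat.le_one_iff_eq_zero_or_eq_one.1 hn with rfl | rfl
    · rw [sum_range_zero, add_zero]; linarith
    · rw [sum_range_one]; linarith

theorem step_split (hp1 : 1 < p) (hp : p ≠ ∞) {T : Finset ℝ} {a b M u0 u1 t0 t1 L : ℝ}
    (hL : 1 ≤ L) (ha : a ∈ T) (hb : b ∈ T) (hM : M ∈ T) (hgap : ∀ t ∈ T, t ≤ a ∨ b ≤ t)
    (hMT : ∀ t ∈ T, t ≤ M) (ht : t0 < t1) (hlen : t1 - t0 ≤ u1 - u0)
    (hcase : (u0 = a ∧ u1 = t0 ∧ t1 = b) ∨ (t0 = a ∧ t1 = u0 ∧ u1 = b)) :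
    ∃ T' : Finset ℝ, T ⊆ T' ∧ t0 ∈ T' ∧ t1 ∈ T' ∧
      IsStep (posCone p) (stepSpace p T) (stepSpace p T') L := by
  classical
  have hr : 1 < p.toReal := by
    have := (ENNReal.toReal_lt_toReal ENNReal.one_ne_top hp).2 hp1
    simpa using this
  obtain ⟨N, hN, R, hR0, hRz, hRc, hRk⟩ := exists_matrix hr (lt_of_lt_of_le one_pos hL)
  have hN' : (0 : ℝ) < N := by exact_mod_cast hN
  set h : ℝ := (t1 - t0) / N with hhdef
  have hh : 0 < h := div_pos (by linarith) hN'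
  have hNh : t0 + N * h = t1 := by rw [hhdef]; field_simp; ring
  have hbM : b ≤ M := hMT b hb
  have hu : u0 < u1 := by linarith
  have hord : a ≤ u0 ∧ u1 ≤ b ∧ a ≤ t0 ∧ t1 ≤ b ∧ (u1 ≤ t0 ∨ t1 ≤ u0) := by
    rcases hcase with ⟨rfl, rfl, rfl⟩ | ⟨rfl, rfl, rfl⟩
    · exact ⟨le_rfl, by linarith, by linarith, le_rfl, Or.inl le_rfl⟩
    · exact ⟨by linarith, le_rfl, le_rfl, by linarith, Or.inr le_rfl⟩
  obtain ⟨o1, o2, o3, o4, o5⟩ := hord
  let e : ℕ → Lp ℝ p (volume : Measure ℝ) := fun i => ind p (t0 + i * h) (t0 + (i + 1) * h)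
  let e' : ℕ → Lp ℝ p (volume : Measure ℝ) := fun j => ind p (M + j * h) (M + (j + 1) * h)
  let w : Lp ℝ p (volume : Measure ℝ) := ind p a b
  have hw : w = ind p u0 u1 + ∑ i ∈ range N, e i := by
    simp only [e, w]
    rw [cells_sum t0 h hh.le N, hNh]
    rcases hcase with ⟨rfl, rfl, rfl⟩ | ⟨rfl, rfl, rfl⟩
    · rw [ind_add hu.le ht.le]
    · rw [add_comm, ind_add ht.le hu.le]
  let x : ℕ → Lp ℝ p (volume : Measure ℝ) := fun i => e i + ∑ j ∈ range (2 * N), R j i • e' j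
  let y : ℕ → Lp ℝ p (volume : Measure ℝ) := fun j => e' j + (h / (L * (u1 - u0 + N * h))) • w
  let W := van p (Set.Ico a b ∪ Set.Ici M)
  have hnorm : ∀ z ∈ (W : Set (Lp ℝ p (volume : Measure ℝ))), ∀ (c0 : ℝ) (c d : ℕ → ℝ),
      ‖z + c0 • ind p u0 u1 + ∑ i ∈ range N, c i • e i + ∑ j ∈ range (2 * N), d j • e' j‖ ^
        p.toReal = ‖z‖ ^ p.toReal + |c0| ^ p.toReal * (u1 - u0) +
          h * ∑ i ∈ range N, |c i| ^ p.toReal + h * ∑ j ∈ range (2 * N), |d j| ^ p.toReal := by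
    intro z hz c0 c d
    rw [norm_add_rpow_of_van hp (s := Set.Ici M), norm_add_rpow_of_van hp (s := Set.Ico t0 t1),
      norm_add_rpow_of_van hp (s := Set.Ico u0 u1), norm_smul_ind_rpow hp hu.le,
      norm_cells_rpow hp t0 h hh.le, norm_cells_rpow hp M h hh.le]
    · exact van_mono (fun x hx => Or.inl ⟨o1.trans hx.1, hx.2.trans_le o2⟩) hz
    · exact Submodule.smul_mem _ _ (ind_mem_van fun x hx h1 => hx h1)
    · refine Submodule.add_mem _
        (van_mono (fun x hx => Or.inl ⟨o3.trans hx.1, hx.2.trans_le o4⟩) hz)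
        (Submodule.smul_mem _ _ (ind_mem_van fun x hx h1 => ?_))
      rcases o5 with o5 | o5
      · linarith [hx.1, h1.2]
      · linarith [hx.2, h1.1]
    · refine cells_mem_van t0 h hh.le N c fun x hx h1 => hx ?_
      rw [hNh] at h1
      exact h1
    · refine Submodule.add_mem _ (Submodule.add_mem _ (van_mono (fun x hx => Or.inr hx) hz)
        (Submodule.smul_mem _ _ (ind_mem_van fun x hx h1 => ?_)))
        (cells_mem_van t0 h hh.le N c fun x hx h1 => ?_)
      · have : M ≤ x := hx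
        linarith [h1.2]
      · have : M ≤ x := hx
        linarith [h1.2]
    · exact cells_mem_van M h hh.le (2 * N) d fun x hx h1 => hx h1.1
  have hdec : ∀ f ∈ stepSpace p T, ∃ z ∈ W, ∃ lam : ℝ, f = z + lam • w := by
    intro f hf
    have h1 : stepSpace p T ≤ W ⊔ Submodule.span ℝ {w} := by
      refine stepSpace_le fun s hs t ht => ?_
      have hsM := hMT s hs
      have htM := hMT t ht
      by_cases h2 : s ≤ a ∧ b ≤ t
      · have hab : a ≤ b := by linarith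
        rw [← ind_add h2.1 (hab.trans h2.2), ← ind_add hab h2.2]
        refine Submodule.add_mem _ (Submodule.mem_sup_left (ind_mem_van ?_))
          (Submodule.add_mem _ (Submodule.mem_sup_right (Submodule.mem_span_singleton_self _))
            (Submodule.mem_sup_left (ind_mem_van ?_)))
        · rintro x (hx | hx) h3
          · linarith [hx.1, h3.2]
          · have : M ≤ x := hx
            linarith [h3.2]
        · rintro x (hx | hx) h3
          · linarith [hx.2, h3.1]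
          · have : M ≤ x := hx
            linarith [h3.2]
      · refine Submodule.mem_sup_left (ind_mem_van ?_)
        rintro x (hx | hx) h3
        · apply h2
          constructor
          · rcases hgap s hs with h4 | h4
            · exact h4
            · linarith [hx.2, h3.1]
          · rcases hgap t ht with h4 | h4
            · linarith [hx.1, h3.2]
            · exact h4
        · have : M ≤ x := hx
          linarith [h3.2]
    obtain ⟨z, hz, v, hv, rfl⟩ := Submodule.mem_sup.1 (h1 hf)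
    obtain ⟨lam, rfl⟩ := Submodule.mem_span_singleton.1 hv
    exact ⟨z, hz, lam, rfl⟩
  let T' : Finset ℝ := T ∪ (range (N + 1)).image (fun i : ℕ => t0 + i * h) ∪
    (range (2 * N + 1)).image (fun j : ℕ => M + j * h)
  have hT : T ⊆ T' := subset_union_left.trans subset_union_left
  have hT1 : ∀ i : ℕ, i ≤ N → t0 + i * h ∈ T' := fun i hi =>
    mem_union_left _ (mem_union_right _ (mem_image.2 ⟨i, mem_range.2 (by omega), rfl⟩))
  have hT2 : ∀ j : ℕ, j ≤ 2 * N → M + j * h ∈ T' := fun j hj =>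
    mem_union_right _ (mem_image.2 ⟨j, mem_range.2 (by omega), rfl⟩)
  have he : ∀ i < N, e i ∈ stepSpace p T' := fun i hi =>
    ind_mem_stepSpace (hT1 i hi.le) (by have := hT1 (i + 1) hi; push_cast at this; exact this)
  have he' : ∀ j < 2 * N, e' j ∈ stepSpace p T' := fun j hj =>
    ind_mem_stepSpace (hT2 j hj.le) (by have := hT2 (j + 1) hj; push_cast at this; exact this)
  have hη : 0 ≤ h / (L * (u1 - u0 + N * h)) := by
    have : 0 < u1 - u0 := by linarith
    have : 0 < L := by linarith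
    positivity
  obtain ⟨blk, hb1, hb2, hb3, hb4⟩ := exists_interleave N x y
  refine ⟨T', hT, by simpa using hT1 0 (Nat.zero_le N), hNh ▸ hT1 N le_rfl, stepSpace_mono hT,
    3 * N, blk, by omega, fun r hr => ?_, fun S hS hS' => ?_, fun f hf c => ?_⟩
  · rcases hb1 r hr with ⟨i, hi, h1⟩ | ⟨j, hj, h1⟩
    · have h2 : ∑ j ∈ range (2 * N), R j i • e' j ∈ posCone p :=
        posCone_sum _ _ fun j _ => posCone_smul (hR0 j i) (ind_nonneg _ _)
      rw [h1]
      refine ⟨posCone_add (ind_nonneg _ _) h2,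
        posCone_add_ne_zero (ind_nonneg _ _) h2 (ind_ne_zero hp (by linarith)),
        Submodule.add_mem _ (he i hi) (Submodule.sum_mem _ fun j hj =>
          Submodule.smul_mem _ _ (he' j (mem_range.1 hj)))⟩
    · have h2 : (h / (L * (u1 - u0 + N * h))) • w ∈ posCone p :=
        posCone_smul hη (ind_nonneg _ _)
      rw [h1]
      refine ⟨posCone_add (ind_nonneg _ _) h2,
        posCone_add_ne_zero (ind_nonneg _ _) h2 (ind_ne_zero hp (by linarith)),
        Submodule.add_mem _ (he' j hj) (Submodule.smul_mem _ _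
          (ind_mem_stepSpace (hT ha) (hT hb)))⟩
  · have hwS : w ∈ S := hS (ind_mem_stepSpace ha hb)
    have h1 : ∀ j < 2 * N, e' j ∈ S := by
      intro j hj
      obtain ⟨r, hr, h2⟩ := hb3 j hj
      have h3 := hS' r hr
      rw [h2] at h3
      exact (S.add_mem_iff_left (S.smul_mem _ hwS)).1 h3
    have h2 : ∀ i < N, e i ∈ S := by
      intro i hi
      obtain ⟨r, hr, h2⟩ := hb2 i hi
      have h3 := hS' r hr
      rw [h2] at h3
      exact (S.add_mem_iff_left (S.sum_mem fun j hj => S.smul_mem _ (h1 j (mem_range.1 hj)))).1 h3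
    have h3 : Rel S a t0 := by
      rcases hcase with ⟨-, -, h4⟩ | ⟨h4, -, -⟩
      · have h5 := rel_cells t0 h hh.le N h2 le_rfl
        rw [hNh, h4] at h5
        exact (rel_of_mem hS ha hb).trans h5.symm
      · rw [h4]; exact rel_of_mem hS ha ha
    refine stepSpace_le_of_rel a fun t ht => ?_
    simp only [T', mem_union, mem_image, mem_range] at ht
    rcases ht with (ht | ⟨i, hi, rfl⟩) | ⟨j, hj, rfl⟩
    · exact rel_of_mem hS ha ht
    · exact h3.trans (rel_cells t0 h hh.le N h2 (by omega))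
    · exact (rel_of_mem hS ha hM).trans (rel_cells M h hh.le (2 * N) h1 (by omega))
  · obtain ⟨z, hz, lam, rfl⟩ := hdec f hf
    obtain ⟨a', b', h1, h2⟩ := hb4 c
    obtain ⟨h3, h4⟩ := block_lemma hr hL hh hN (by linarith : N * h ≤ u1 - u0) hRz hRc hRk
      (W : Set (Lp ℝ p (volume : Measure ℝ))) W.zero_mem (ind p u0 u1) e e' hnorm w hw x y
      (fun _ => rfl) (fun _ => rfl) z hz lam a' b'
    rw [h1, ← add_assoc]
    refine ⟨h3, fun n hn => ?_⟩
    obtain ⟨k, l, hk, hl, hkl, hlk, h5⟩ := h2 n hn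
    rw [h5, ← add_assoc]
    exact h4 k l hk hl hkl hlk

theorem step_any (hp1 : 1 < p) (hp : p ≠ ∞) {T : Finset ℝ} (hT : T.Nonempty) (s : ℝ) {L : ℝ}
    (hL : 1 ≤ L) : ∃ T' : Finset ℝ, T ⊆ T' ∧ s ∈ T' ∧
      IsStep (posCone p) (stepSpace p T) (stepSpace p T') L := by
  classical
  have hM := T.max'_mem hT
  have hMT : ∀ t ∈ T, t ≤ T.max' hT := fun t ht => T.le_max' t ht
  have hm := T.min'_mem hT
  have hmT : ∀ t ∈ T, T.min' hT ≤ t := fun t ht => T.min'_le t ht
  by_cases hs : s ∈ T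
  · refine ⟨_, (subset_insert _ _).trans (subset_insert _ _), by simp [hs],
      step_out hp hL (lt_add_one (T.max' hT)) (Or.inl ⟨hM, hMT⟩)⟩
  by_cases h1 : T.max' hT < s
  · exact ⟨_, (subset_insert _ _).trans (subset_insert _ _), by simp,
      step_out hp hL h1 (Or.inl ⟨hM, hMT⟩)⟩
  by_cases h2 : s < T.min' hT
  · exact ⟨_, (subset_insert _ _).trans (subset_insert _ _), by simp,
      step_out hp hL h2 (Or.inr ⟨hm, hmT⟩)⟩
  have hA : (T.filter (· ≤ s)).Nonempty := ⟨_, mem_filter.2 ⟨hm, not_lt.1 h2⟩⟩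
  have hB : (T.filter (s ≤ ·)).Nonempty := ⟨_, mem_filter.2 ⟨hM, not_lt.1 h1⟩⟩
  obtain ⟨ha, has⟩ := mem_filter.1 (max'_mem _ hA)
  obtain ⟨hb, hbs⟩ := mem_filter.1 (min'_mem _ hB)
  set a := (T.filter (· ≤ s)).max' hA
  set b := (T.filter (s ≤ ·)).min' hB
  have has' : a < s := lt_of_le_of_ne has fun h => hs (h ▸ ha)
  have hbs' : s < b := lt_of_le_of_ne hbs fun h => hs (h ▸ hb)
  have hgap : ∀ t ∈ T, t ≤ a ∨ b ≤ t := by
    intro t ht
    rcases le_total t s with h | h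
    · exact Or.inl (le_max' _ t (mem_filter.2 ⟨ht, h⟩))
    · exact Or.inr (min'_le _ t (mem_filter.2 ⟨ht, h⟩))
  rcases le_total (b - s) (s - a) with h | h
  · obtain ⟨T', h3, h4, -, h5⟩ := step_split hp1 hp hL ha hb hM hgap hMT hbs' h
      (Or.inl ⟨rfl, rfl, rfl⟩)
    exact ⟨T', h3, h4, h5⟩
  · obtain ⟨T', h3, -, h4, h5⟩ := step_split hp1 hp hL ha hb hM hgap hMT has' h
      (Or.inr ⟨rfl, rfl, rfl⟩)
    exact ⟨T', h3, h4, h5⟩

theorem exists_nonneg_basic (hp1 : 1 < p) (hp : p ≠ ∞) :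
    ∃ f : ℕ → Lp ℝ p (volume : Measure ℝ), (∀ n, f n ∈ posCone p ∧ f n ≠ 0) ∧
      Dense (Submodule.span ℝ (Set.range f) : Set (Lp ℝ p (volume : Measure ℝ))) ∧
      ∀ (a : ℕ → ℝ) (m l : ℕ), m ≤ l →
        ‖∑ i ∈ range m, a i • f i‖ ≤ 17 * ‖∑ i ∈ range l, a i • f i‖ := by
  obtain ⟨q, hq⟩ := exists_surjective_nat ℚ
  obtain ⟨x, T, h1, h2, h3, h4⟩ := glue (posCone p) (σ := {T : Finset ℝ // T.Nonempty})
    (fun T => stepSpace p T.1) (fun n T T' => T.1 ⊆ T'.1 ∧ (q n : ℝ) ∈ T'.1)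
    ⟨{0}, singleton_nonempty 0⟩
    (by
      refine eq_bot_iff.2 (stepSpace_le fun s hs t ht => ?_)
      rw [mem_singleton.1 hs, mem_singleton.1 ht, ind_eq_zero le_rfl]
      exact Submodule.zero_mem _)
    (by
      rintro n ⟨T, hT⟩ L hL
      obtain ⟨T', h1, h2, h3⟩ := step_any hp1 hp hT (q n) hL
      exact ⟨⟨T', hT.mono h1⟩, ⟨h1, h2⟩, h3⟩)
  refine ⟨x, h2, ?_, h4⟩
  have hmono : Monotone fun n => (T n).1 := monotone_nat_of_le_succ fun n => (h1 n).1
  rw [Submodule.dense_iff_topologicalClosure_eq_top, eq_top_iff]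
  intro f _
  refine eq_top_of_ind_mem hp _ (Submodule.isClosed_topologicalClosure _) (fun a b => ?_) f
  obtain ⟨i, rfl⟩ := hq a
  obtain ⟨j, rfl⟩ := hq b
  refine Submodule.le_topologicalClosure _ (h3 (i + j + 1) (ind_mem_stepSpace ?_ ?_))
  · exact hmono (by omega : i + 1 ≤ i + j + 1) (h1 i).2
  · exact hmono (by omega : j + 1 ≤ i + j + 1) (h1 j).2

theorem exists_nonneg_schauder_basis (hp1 : 1 < p) (hp : p ≠ ∞) :
    ∃ f : ℕ → Lp ℝ p (volume : Measure ℝ), (∀ n, ∀ᵐ x, 0 ≤ f n x) ∧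
      ∀ g : Lp ℝ p (volume : Measure ℝ), ∃! a : ℕ → ℝ,
        Tendsto (fun m => ∑ n ∈ range m, a n • f n) atTop (𝓝 g) := by
  obtain ⟨f, h1, h2, h3⟩ := exists_nonneg_basic hp1 hp
  exact ⟨f, fun n => (h1 n).1, schauder_of_basic f 17 (fun n => (h1 n).2) h3 h2⟩

end Pool.Agent.MP_ada34c_an
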